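import Mathlib.Data.Set.Card
import Mathlib.Tactic

/-!
# Counting blocks in disjoint windows
-/

set_option autoImplicit false

namespace Pool.Agent.Gap14

theorem count_windows {r G K : ℕ} (P : Fin (r + r) → Prop) (h1 : ∀ i, i.val < r → P i)
    (h2 : ∀ k < K, ∃ i : Fin (r + r), r + G * k ≤ i.val ∧ i.val < r + G * k + G ∧ P i) :
    r + K ≤ {i | P i}.ncard := by
  have h2' : ∀ k : Fin K, ∃ i : Fin (r + r), r + G * k.val ≤ i.val ∧
      i.val < r + G * k.val + G ∧ P i := fun k => h2 k.val k.isLt
  choose g hg using h2'
  let f : Fin r ⊕ Fin K → Fin (r + r) := Sum.elim (Fin.castAdd r) g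
  have hf : Function.Injective f := by
    rintro (i | k) (j | l) h
    · simp only [f, Sum.elim_inl] at h
      rw [Fin.castAdd_injective r r h]
    · exfalso
      have e1 := (hg l).1
      have e2 : (f (Sum.inr l)).val < r := by
        rw [← h]
        exact i.isLt
      simp only [f, Sum.elim_inr] at e2
      omega
    · exfalso
      have e1 := (hg k).1
      have e2 : (f (Sum.inr k)).val < r := by
        rw [h]
        exact j.isLt
      simp only [f, Sum.elim_inr] at e2
      omega
    · simp only [f, Sum.elim_inr] at h
      obtain ⟨e1, e2, -⟩ := hg k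
      obtain ⟨e3, e4, -⟩ := hg l
      rw [h] at e1 e2
      congr 1
      apply Fin.ext
      rcases Nat.lt_trichotomy k.val l.val with h5 | h5 | h5
      · exfalso
        have : G * k.val + G ≤ G * l.val := by
          calc G * k.val + G = G * (k.val + 1) := by ring
            _ ≤ G * l.val := Nat.mul_le_mul_left G h5
        omega
      · exact h5
      · exfalso
        have : G * l.val + G ≤ G * k.val := by
          calc G * l.val + G = G * (l.val + 1) := by ring
            _ ≤ G * k.val := Nat.mul_le_mul_left G h5
        omega
  have hsub : Set.range f ⊆ {i | P i} := by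
    rintro _ ⟨i | k, rfl⟩
    · exact h1 _ i.isLt
    · exact (hg k).2.2
  have h3 := Set.ncard_le_ncard hsub (Set.toFinite _)
  rw [← Set.image_univ, Set.ncard_image_of_injective _ hf, Set.ncard_univ,
    Nat.card_eq_fintype_card, Fintype.card_sum, Fintype.card_fin, Fintype.card_fin] at h3
  exact h3

end Pool.Agent.Gap14
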