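import Pool.Agent.Gap14.Walk

/-!
# Balls with a thin layer
-/

set_option autoImplicit false

namespace Pool.Agent.Gap14

variable {V : Type*}

/-- the elements of `S` which can be reached from `v` by at most `k` arcs inside `S` -/
noncomputable def Bo [DecidableEq V] (D : V → V → Prop) (S : Finset V) (v : V) : ℕ → Finset V
  | 0 => {v}
  | k + 1 => by
    classical
    exact Bo D S v k ∪ S.filter fun u => ∃ x ∈ Bo D S v k, D x u

theorem mem_Bo_succ [DecidableEq V] {D : V → V → Prop} {S : Finset V} {v : V} {k : ℕ} {u : V} :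
    u ∈ Bo D S v (k + 1) ↔ u ∈ Bo D S v k ∨ (u ∈ S ∧ ∃ x ∈ Bo D S v k, D x u) := by
  rw [Bo]
  simp only [Finset.mem_union, Finset.mem_filter]

theorem Bo_mono [DecidableEq V] {D : V → V → Prop} {S : Finset V} {v : V} :
    Monotone (Bo D S v) :=
  monotone_nat_of_le_succ fun _ _ hu => mem_Bo_succ.2 (Or.inl hu)

theorem mem_Bo_self [DecidableEq V] {D : V → V → Prop} {S : Finset V} {v : V} (k : ℕ) :
    v ∈ Bo D S v k :=
  Bo_mono (Nat.zero_le k) (by rw [Bo, Finset.mem_singleton])

/-- a walk of length `l` from `a` to `c` inside `S` -/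
def Wk (D : V → V → Prop) (S : Finset V) (l : ℕ) (a c : V) : Prop :=
  ∃ w : ℕ → V, w 0 = a ∧ w l = c ∧ (∀ i ≤ l, w i ∈ S) ∧ ∀ i < l, D (w i) (w (i + 1))

theorem Wk.snoc {D : V → V → Prop} {S : Finset V} {l : ℕ} {a c d : V} (h : Wk D S l a c)
    (hd : d ∈ S) (hcd : D c d) : Wk D S (l + 1) a d := by
  obtain ⟨w, h0, h1, h2, h3⟩ := h
  refine ⟨fun i => if i ≤ l then w i else d, ?_, ?_, ?_, ?_⟩
  · simp [h0]
  · simp
  · intro i _
    dsimp only
    split_ifs with hi
    · exact h2 i hi
    · exact hd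
  · intro i hi
    dsimp only
    rcases Nat.eq_or_lt_of_le (show i ≤ l by omega) with h4 | h4
    · rw [if_pos (by omega), if_neg (by omega), h4, h1]
      exact hcd
    · rw [if_pos (by omega), if_pos (by omega)]
      exact h3 i h4

theorem Wk.cons {D : V → V → Prop} {S : Finset V} {l : ℕ} {a c d : V} (h : Wk D S l c d)
    (ha : a ∈ S) (hac : D a c) : Wk D S (l + 1) a d := by
  obtain ⟨w, h0, h1, h2, h3⟩ := h
  refine ⟨fun i => if i = 0 then a else w (i - 1), by simp, by simp [h1], ?_, ?_⟩
  · intro i hi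
    dsimp only
    split_ifs with h4
    · exact ha
    · exact h2 _ (by omega)
  · intro i hi
    dsimp only
    rcases Nat.eq_zero_or_pos i with h4 | h4
    · subst h4
      simp only [if_true, Nat.zero_add, one_ne_zero, if_false, Nat.sub_self, h0]
      exact hac
    · rw [if_neg (by omega), if_neg (by omega)]
      have : i + 1 - 1 = i - 1 + 1 := by omega
      rw [this]
      exact h3 _ (by omega)

theorem wk_of_mem_Bo [DecidableEq V] {D : V → V → Prop} {S : Finset V} {v : V} (hv : v ∈ S)
    {k : ℕ} : ∀ {u : V}, u ∈ Bo D S v k → ∃ l ≤ k, Wk D S l v u := by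
  induction k with
  | zero =>
    intro u hu
    rw [Bo, Finset.mem_singleton] at hu
    subst hu
    exact ⟨0, le_rfl, fun _ => u, rfl, rfl, fun _ _ => hv, fun i hi => absurd hi (by omega)⟩
  | succ k ih =>
    intro u hu
    rcases mem_Bo_succ.1 hu with h | ⟨hu, x, hx, hxu⟩
    · obtain ⟨l, hl, hw⟩ := ih h
      exact ⟨l, by omega, hw⟩
    · obtain ⟨l, hl, hw⟩ := ih hx
      exact ⟨l + 1, by omega, hw.snoc hu hxu⟩

theorem wk_of_mem_Bo_rev [DecidableEq V] {D : V → V → Prop} {S : Finset V} {v : V} (hv : v ∈ S)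
    {k : ℕ} : ∀ {u : V}, u ∈ Bo (fun a c => D c a) S v k → ∃ l ≤ k, Wk D S l u v := by
  induction k with
  | zero =>
    intro u hu
    rw [Bo, Finset.mem_singleton] at hu
    subst hu
    exact ⟨0, le_rfl, fun _ => u, rfl, rfl, fun _ _ => hv, fun i hi => absurd hi (by omega)⟩
  | succ k ih =>
    intro u hu
    rcases mem_Bo_succ.1 hu with h | ⟨hu, x, hx, hxu⟩
    · obtain ⟨l, hl, hw⟩ := ih h
      exact ⟨l, by omega, hw⟩
    · obtain ⟨l, hl, hw⟩ := ih hx
      exact ⟨l + 1, by omega, hw.cons hu hxu⟩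

theorem cw_of_wk {D : V → V → Prop} {S : Finset V} {l l' : ℕ} {a c : V} (h : Wk D S l a c)
    (h' : Wk D S l' c a) (h0 : 0 < l + l') : ∃ w, CW D S (l + l') w := by
  obtain ⟨w, e0, e1, e2, e3⟩ := h
  obtain ⟨w', f0, f1, f2, f3⟩ := h'
  refine ⟨fun i => if i < l then w i else w' (i - l), h0, ?_, ?_, ?_⟩
  · intro i hi
    dsimp only
    split_ifs with h4
    · exact e2 i h4.le
    · exact f2 _ (by omega)
  · dsimp only
    rw [if_neg (by omega), Nat.add_sub_cancel_left, f1]
    split_ifs with h4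
    · exact e0.symm
    · have : l = 0 := by omega
      subst this
      rw [Nat.sub_zero, f0, ← e1, e0]
  · intro i hi
    dsimp only
    rcases Nat.lt_trichotomy (i + 1) l with h4 | h4 | h4
    · rw [if_pos (by omega), if_pos h4]
      exact e3 i (by omega)
    · rw [if_pos (by omega), if_neg (by omega), h4, Nat.sub_self, f0, ← e1, ← h4]
      exact e3 i (by omega)
    · rw [if_neg (by omega), if_neg (by omega)]
      have : i + 1 - l = i - l + 1 := by omega
      rw [this]
      exact f3 _ (by omega)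

/-- a chain of sets which grows at every step by more than a `q`-th grows exponentially -/
theorem thin_layer [DecidableEq V] (Z : ℕ → Finset V) (hZ : Monotone Z) (q : ℕ) (hq : 1 ≤ q)
    (h0 : (Z 0).Nonempty) (L : ℕ) (h : (Z (q * L)).card < 2 ^ L) :
    ∃ j < q * L, q * (Z (j + 1) \ Z j).card ≤ (Z j).card := by
  by_contra hcon
  push Not at hcon
  have hcard : ∀ j, (Z (j + 1) \ Z j).card + (Z j).card = (Z (j + 1)).card := fun j =>
    Finset.card_sdiff_add_card_eq_card (hZ (Nat.le_succ j))
  have key : ∀ i ≤ L, 2 ^ i ≤ (Z (q * i)).card := by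
    intro i
    induction i with
    | zero =>
      intro _
      rw [Nat.mul_zero, pow_zero]
      exact Finset.card_pos.2 h0
    | succ i ih =>
      intro hi
      have h1 := ih (by omega)
      have h2 : ∀ t ≤ q, q * (Z (q * i)).card + t * (Z (q * i)).card ≤
          q * (Z (q * i + t)).card := by
        intro t
        induction t with
        | zero =>
          intro _
          simp
        | succ t iht =>
          intro ht
          have h3 := iht (by omega)
          have h4 : q * i + t < q * L := by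
            calc q * i + t < q * i + q := by omega
              _ = q * (i + 1) := by ring
              _ ≤ q * L := Nat.mul_le_mul_left q hi
          have h5 := hcon (q * i + t) h4
          have h6 := hcard (q * i + t)
          have h7 : (Z (q * i)).card ≤ (Z (q * i + t)).card :=
            Finset.card_le_card (hZ (by omega))
          have h8 : q * i + (t + 1) = q * i + t + 1 := by ring
          rw [h8, ← h6, Nat.mul_add, Nat.add_mul]
          omega
      have h9 := h2 q le_rfl
      have h10 : q * i + q = q * (i + 1) := by ring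
      rw [h10] at h9
      have h11 : 2 * (Z (q * i)).card ≤ (Z (q * (i + 1))).card := by
        have : q * (2 * (Z (q * i)).card) ≤ q * (Z (q * (i + 1))).card := by
          calc q * (2 * (Z (q * i)).card) = q * (Z (q * i)).card + q * (Z (q * i)).card := by ring
            _ ≤ _ := h9
        exact Nat.le_of_mul_le_mul_left this hq
      rw [pow_succ]
      omega
  have := key L le_rfl
  omega

theorem ball_layer [DecidableEq V] (D : V → V → Prop) (S : Finset V) (L q : ℕ) (hL : 1 ≤ L)
    (hq : 1 ≤ q) (hS : S.card ≤ 2 ^ L) {v : V} (hv : v ∈ S)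
    (h : ∀ m ≤ 2 * q * L, ∀ w, ¬ CW D S m w) :
    ∃ X Y : Finset V, v ∈ X ∧ X ⊆ S ∧ Y ⊆ S \ X ∧ 2 * X.card ≤ S.card + 1 ∧
      q * Y.card ≤ X.card ∧
      ((∀ x ∈ X, ∀ u ∈ S, u ∉ X → u ∉ Y → ¬ D x u) ∨
        (∀ x ∈ X, ∀ u ∈ S, u ∉ X → u ∉ Y → ¬ D u x)) := by
  classical
  have hsub : ∀ (R : V → V → Prop) k, Bo R S v k ⊆ S := by
    intro R k
    induction k with
    | zero =>
      intro u hu
      rw [Bo, Finset.mem_singleton] at hu
      rw [hu]
      exact hv
    | succ k ih =>
      intro u hu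
      rcases mem_Bo_succ.1 hu with h1 | h1
      · exact ih h1
      · exact h1.1
  have hlayer : ∀ R : V → V → Prop, 2 * (Bo R S v (q * L)).card ≤ S.card + 1 →
      ∃ X Y : Finset V, v ∈ X ∧ X ⊆ S ∧ Y ⊆ S \ X ∧ 2 * X.card ≤ S.card + 1 ∧
      q * Y.card ≤ X.card ∧ ∀ x ∈ X, ∀ u ∈ S, u ∉ X → u ∉ Y → ¬ R x u := by
    intro R hR
    have h2L : 2 ≤ 2 ^ L := by
      calc 2 = 2 ^ 1 := by norm_num
        _ ≤ 2 ^ L := Nat.pow_le_pow_right (by norm_num) hL
    obtain ⟨j, hj, hj2⟩ := thin_layer (Bo R S v) Bo_mono q hq ⟨v, mem_Bo_self 0⟩ L (by omega)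
    refine ⟨Bo R S v j, Bo R S v (j + 1) \ Bo R S v j, mem_Bo_self j, hsub R j, ?_, ?_, hj2, ?_⟩
    · exact Finset.sdiff_subset_sdiff (hsub R _) (Finset.Subset.refl _)
    · have := Finset.card_le_card (Bo_mono (D := R) (S := S) (v := v) hj.le)
      omega
    · intro x hx u hu hux huy hxu
      apply huy
      rw [Finset.mem_sdiff]
      exact ⟨mem_Bo_succ.2 (Or.inr ⟨hu, x, hx, hxu⟩), hux⟩
  have hinter : (Bo D S v (q * L)) ∩ (Bo (fun a c => D c a) S v (q * L)) ⊆ {v} := by
    intro u hu
    rw [Finset.mem_inter] at hu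
    rw [Finset.mem_singleton]
    by_contra huv
    obtain ⟨l, hl, hw⟩ := wk_of_mem_Bo hv hu.1
    obtain ⟨l', hl', hw'⟩ := wk_of_mem_Bo_rev hv hu.2
    have hl0 : 0 < l := by
      rcases Nat.eq_zero_or_pos l with h1 | h1
      · subst h1
        obtain ⟨w, e0, e1, -⟩ := hw
        exact absurd (e1.symm.trans e0) huv
      · exact h1
    obtain ⟨w, hcw⟩ := cw_of_wk hw hw' (by omega)
    refine h (l + l') ?_ w hcw
    have : 2 * q * L = q * L + q * L := by ring
    omega
  have hsum : (Bo D S v (q * L)).card + (Bo (fun a c => D c a) S v (q * L)).card ≤ S.card + 1 := by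
    have h1 := Finset.card_union_add_card_inter (Bo D S v (q * L))
      (Bo (fun a c => D c a) S v (q * L))
    have h2 := Finset.card_le_card hinter
    have h3 : (Bo D S v (q * L) ∪ Bo (fun a c => D c a) S v (q * L)).card ≤ S.card :=
      Finset.card_le_card (Finset.union_subset (hsub _ _) (hsub _ _))
    rw [Finset.card_singleton] at h2
    omega
  rcases Nat.le_total (Bo D S v (q * L)).card (Bo (fun a c => D c a) S v (q * L)).card with h1 | h1
  · obtain ⟨X, Y, e1, e2, e3, e4, e5, e6⟩ := hlayer D (by omega)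
    exact ⟨X, Y, e1, e2, e3, e4, e5, Or.inl e6⟩
  · obtain ⟨X, Y, e1, e2, e3, e4, e5, e6⟩ := hlayer (fun a c => D c a) (by omega)
    exact ⟨X, Y, e1, e2, e3, e4, e5, Or.inr e6⟩

end Pool.Agent.Gap14
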