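import Pool.Agent.Gap14.Walk

/-!
# Sets which are not acyclic contain closed walks
-/

set_option autoImplicit false

namespace Pool.Agent.Gap14

variable {V : Type*}

theorem exists_cw_of_not_acyc {D : V → V → Prop} {A : Finset V} (h : ¬ Acyc D A) :
    ∃ m ≤ A.card, ∃ w : ℕ → V, CW D A m w := by
  classical
  unfold Acyc at h
  push Not at h
  obtain ⟨A', hA', ⟨c0, hc0⟩, h⟩ := h
  have h1 : ∀ c, ∃ i, c ∈ A' → i ∈ A' ∧ D i c := by
    intro c
    by_cases hc : c ∈ A'
    · obtain ⟨i, hi, hD⟩ := h c hc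
      exact ⟨i, fun _ => ⟨hi, hD⟩⟩
    · exact ⟨c, fun h => absurd h hc⟩
  choose f hf using h1
  have hit : ∀ k, f^[k] c0 ∈ A' := by
    intro k
    induction k with
    | zero => exact hc0
    | succ k ih =>
      rw [Function.iterate_succ_apply']
      exact (hf _ ih).1
  obtain ⟨s, hs, t, ht, hst, heq⟩ := Finset.exists_ne_map_eq_of_card_lt_of_maps_to
    (s := Finset.range (A'.card + 1)) (t := A') (by simp) (f := fun k => f^[k] c0)
    (fun k _ => hit k)
  rw [Finset.mem_range] at hs ht
  have key : ∀ s t, s < A'.card + 1 → t < A'.card + 1 → s < t → f^[s] c0 = f^[t] c0 →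
      ∃ m ≤ A.card, ∃ w : ℕ → V, CW D A m w := by
    intro s t hs ht hst heq
    have hc := Finset.card_le_card hA'
    refine ⟨t - s, by omega, fun k => f^[t - k] c0, by omega, ?_, ?_, ?_⟩
    · intro i _
      exact hA' (hit _)
    · dsimp only
      rw [Nat.sub_zero, ← heq]
      congr 2
      omega
    · intro i hi
      dsimp only
      have : t - i = (t - (i + 1)) + 1 := by omega
      rw [this, Function.iterate_succ_apply']
      exact (hf _ (hit _)).2
  rcases Nat.lt_or_gt_of_ne hst with h2 | h2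
  · exact key s t hs ht h2 heq
  · exact key t s ht hs h2 heq.symm

theorem CW.mono {D : V → V → Prop} {A S : Finset V} (hAS : A ⊆ S) {m : ℕ} {w : ℕ → V}
    (h : CW D A m w) : CW D S m w :=
  ⟨h.1, fun i hi => hAS (h.2.1 i hi), h.2.2⟩

end Pool.Agent.Gap14
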