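import Mathlib.Data.Finset.Card
import Mathlib.Tactic

/-!
# Closed walks and acyclic sets of a digraph

A shortest closed walk has no chords.
-/

set_option autoImplicit false

namespace Pool.Agent.Gap14

variable {V : Type*}

/-- closed walk of length `m` in `S` -/
def CW (D : V → V → Prop) (S : Finset V) (m : ℕ) (w : ℕ → V) : Prop :=
  0 < m ∧ (∀ i < m, w i ∈ S) ∧ w m = w 0 ∧ ∀ i < m, D (w i) (w (i + 1))

/-- every nonempty subset has an element without arcs from the subset -/
def Acyc (D : V → V → Prop) (A : Finset V) : Prop :=
  ∀ A' ⊆ A, A'.Nonempty → ∃ c ∈ A', ∀ i ∈ A', ¬ D i c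

/-- a shortest closed walk has no chords -/
theorem CW.chordless {D : V → V → Prop} {S : Finset V} {m : ℕ} {w : ℕ → V} (h : CW D S m w)
    (hmin : ∀ m' < m, ∀ w', ¬ CW D S m' w') {i j : ℕ} (hi : i < m) (hj : j < m)
    (hD : D (w i) (w j)) : j = i + 1 ∨ (i + 1 = m ∧ j = 0) := by
  obtain ⟨h0, h1, h2, h3⟩ := h
  by_contra hne
  push Not at hne
  rcases Nat.lt_or_ge i j with hij | hij
  · -- `w 0, ..., w i, w j, ..., w m`
    have hlt : i + 1 < j := by
      rcases Nat.eq_or_lt_of_le (show i + 1 ≤ j by omega) with h4 | h4
      · exact absurd h4.symm hne.1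
      · exact h4
    refine hmin (i + 1 + (m - j)) (by omega) (fun k => if k ≤ i then w k else w (k - (i + 1) + j))
      ⟨by omega, ?_, ?_, ?_⟩
    · intro k hk
      dsimp only
      split_ifs with hki
      · exact h1 k (by omega)
      · exact h1 _ (by omega)
    · dsimp only
      rw [if_neg (by omega), if_pos (by omega)]
      rw [← h2]
      congr 1
      omega
    · intro k hk
      dsimp only
      rcases Nat.lt_trichotomy k i with hki | hki | hki
      · rw [if_pos (by omega), if_pos (by omega)]
        exact h3 k (by omega)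
      · subst hki
        rw [if_pos le_rfl, if_neg (by omega)]
        have : k + 1 - (k + 1) + j = j := by omega
        rw [this]
        exact hD
      · rw [if_neg (by omega), if_neg (by omega)]
        have : k + 1 - (i + 1) + j = k - (i + 1) + j + 1 := by omega
        rw [this]
        exact h3 _ (by omega)
  · -- `w j, ..., w i, w j`
    have hlt : i + 1 - j < m := by
      rcases Nat.eq_or_lt_of_le (show i + 1 ≤ m by omega) with h4 | h4
      · have := hne.2 h4
        omega
      · omega
    refine hmin (i + 1 - j) hlt (fun k => if k ≤ i - j then w (k + j) else w j)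
      ⟨by omega, ?_, ?_, ?_⟩
    · intro k hk
      dsimp only
      split_ifs with hki
      · exact h1 _ (by omega)
      · exact h1 _ (by omega)
    · dsimp only
      rw [if_neg (by omega), if_pos (by omega), Nat.zero_add]
    · intro k hk
      dsimp only
      rw [if_pos (by omega)]
      rcases Nat.eq_or_lt_of_le (show k ≤ i - j by omega) with h5 | h5
      · rw [if_neg (by omega)]
        have : k + j = i := by omega
        rw [this]
        exact hD
      · rw [if_pos (by omega)]
        have : k + 1 + j = k + j + 1 := by omega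
        rw [this]
        exact h3 _ (by omega)

/-- there is a shortest closed walk -/
theorem exists_shortest {D : V → V → Prop} {S : Finset V} {m : ℕ} {w : ℕ → V}
    (h : CW D S m w) :
    ∃ m' ≤ m, ∃ w', CW D S m' w' ∧ ∀ m'' < m', ∀ w'', ¬ CW D S m'' w'' := by
  classical
  have hex : ∃ m', ∃ w', CW D S m' w' := ⟨m, w, h⟩
  refine ⟨Nat.find hex, Nat.find_le ⟨w, h⟩, (Nat.find_spec hex).choose,
    (Nat.find_spec hex).choose_spec, ?_⟩
  intro m'' hm'' w'' hw''
  exact Nat.find_min hex hm'' ⟨w'', hw''⟩

end Pool.Agent.Gap14
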