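import Mathlib.Combinatorics.Matroid.Circuit
import Mathlib.Combinatorics.Matroid.Closure
import Pool.Agent.Gap14.Walk

/-!
# Acyclic sets of exchanges are small, chordless cycles of exchanges can be carried out
-/

set_option autoImplicit false

namespace Pool.Agent.Gap14

variable {ι : Type*} {N : Matroid ι}

/-- a basis inside a set which spans a basis -/
theorem exists_isBase_subset {T Z : Set ι} (hT : N.IsBase T) (hZ : T ⊆ N.closure Z)
    (hZE : Z ⊆ N.E) : ∃ B, N.IsBase B ∧ B ⊆ Z := by
  have h1 : N.Spanning Z := by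
    rw [Matroid.spanning_iff_ground_subset_closure, ← hT.closure_eq]
    exact (N.closure_subset_closure_iff_subset_closure hT.subset_ground).2 hZ
  exact h1.exists_isBase_subset

/-- an element which cannot be exchanged for any element of `S` is spanned by the rest -/
theorem mem_closure_sdiff {T : Set ι} (hT : N.IsBase T) {d : ι} (hdE : d ∈ N.E) (hd : d ∉ T)
    {S : Set ι} (h : ∀ i ∈ S, i ∈ T → ¬ N.IsBase (insert d (T \ {i}))) :
    d ∈ N.closure (T \ S) := by
  have hcirc := hT.fundCircuit_isCircuit hdE hd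
  have h1 := hcirc.mem_closure_sdiff_singleton_of_mem (N.mem_fundCircuit d T)
  refine N.closure_subset_closure ?_ h1
  rintro i ⟨hi, hid⟩
  have hid' : i ≠ d := hid
  have hiT : i ∈ T := ((N.fundCircuit_subset_insert d T) hi).resolve_left hid'
  refine ⟨hiT, fun hiS => h i hiS hiT ?_⟩
  rw [hT.indep.mem_fundCircuit_iff (by rwa [hT.closure_eq]) hd] at hi
  have h2 := hT.exchange_isBase_of_indep' hiT hd hi
  rwa [Set.insert_sdiff_singleton_comm (Ne.symm hid')] 

/-- the element `i` exchanged for `d` is spanned by `d` and the elements which cannot be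
exchanged -/
theorem mem_closure_exch {T : Set ι} (hT : N.IsBase T) {i d : ι} (hd : d ∉ T) (hi : i ∈ T)
    (hb : N.IsBase (insert d (T \ {i}))) {Z : Set ι} (hdZ : d ∈ Z)
    (h : ∀ j ∈ T, j ≠ i → N.IsBase (insert d (T \ {j})) → j ∈ Z) :
    i ∈ N.closure Z := by
  have hdE : d ∈ N.E := hb.subset_ground (Set.mem_insert _ _)
  have hcirc := hT.fundCircuit_isCircuit hdE hd
  have hdi : d ≠ i := fun h => hd (h ▸ hi)
  have hiK : i ∈ N.fundCircuit d T := by
    rw [hT.indep.mem_fundCircuit_iff (by rwa [hT.closure_eq]) hd,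
      ← Set.insert_sdiff_singleton_comm hdi]
    exact hb.indep
  refine N.closure_subset_closure ?_ (hcirc.mem_closure_sdiff_singleton_of_mem hiK)
  rintro j ⟨hj, hji⟩
  have hji' : j ≠ i := hji
  rcases (N.fundCircuit_subset_insert d T) hj with rfl | hjT
  · exact hdZ
  · refine h j hjT hji' ?_
    have hdj : d ≠ j := fun h => hd (h ▸ hjT)
    rw [hT.indep.mem_fundCircuit_iff (by rwa [hT.closure_eq]) hd] at hj
    have h2 := hT.exchange_isBase_of_indep' hjT hd hj
    rwa [Set.insert_sdiff_singleton_comm hdj]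

/-- `c` may leave `T` for an element `d` of `C'`, which leaves `T'` for `c'` -/
def Dg (N : Matroid ι) (T T' C' : Set ι) (c c' : ι) : Prop :=
  ∃ d ∈ C', N.IsBase (insert d (T \ {c})) ∧ N.IsBase (insert c' (T' \ {d}))

theorem acyc_span [DecidableEq ι] {T T' C' : Set ι} (hT : N.IsBase T) (hT' : N.IsBase T')
    (hd : Disjoint T T') (S : Finset ι) (hS : (S : Set ι) ⊆ T)
    (hA : Acyc (Dg N T T' C') S) : T ⊆ N.closure ((T \ S) ∪ (T' \ C')) := by
  induction hn : S.card generalizing S with
  | zero =>
    rw [Finset.card_eq_zero] at hn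
    subst hn
    intro t ht
    exact N.mem_closure_of_mem' (Or.inl ⟨ht, by simp⟩) (hT.subset_ground ht)
  | succ n ih =>
    obtain ⟨c, hc, hcS⟩ := hA S (Finset.Subset.refl _) (by
      rw [← Finset.card_pos]; omega)
    have h1 := ih (S.erase c) (fun x hx => hS (Finset.mem_of_mem_erase hx))
      (fun A' hA' => hA A' (hA'.trans (Finset.erase_subset _ _)))
      (by rw [Finset.card_erase_of_mem hc]; omega)
    have hcT : c ∈ T := hS hc
    have hcT' : c ∉ T' := fun h => Set.disjoint_left.1 hd hcT h
    set Z : Set ι := (T \ S) ∪ (T' \ C') with hZ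
    have h2 : c ∈ N.closure Z := by
      have hcE := hT.subset_ground hcT
      have hcirc := hT'.fundCircuit_isCircuit hcE hcT'
      have h3 := hcirc.mem_closure_sdiff_singleton_of_mem (N.mem_fundCircuit c T')
      have h4 : N.fundCircuit c T' \ {c} ⊆ N.closure Z := by
        rintro d ⟨hdK, hdc⟩
        have hdc' : d ≠ c := hdc
        have hdT' : d ∈ T' := ((N.fundCircuit_subset_insert c T') hdK).resolve_left hdc'
        have hdT : d ∉ T := fun h => Set.disjoint_left.1 hd h hdT'
        have hdE := hT'.subset_ground hdT'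
        by_cases hdC : d ∈ C'
        · refine N.closure_subset_closure Set.subset_union_left ?_
          refine mem_closure_sdiff hT hdE hdT ?_
          intro i hi hiT hb
          refine hcS i hi ⟨d, hdC, hb, ?_⟩
          rw [hT'.indep.mem_fundCircuit_iff (by rwa [hT'.closure_eq]) hcT'] at hdK
          have h5 := hT'.exchange_isBase_of_indep' hdT' hcT' hdK
          rwa [Set.insert_sdiff_singleton_comm (Ne.symm hdc')]
        · exact N.mem_closure_of_mem' (Or.inr ⟨hdT', hdC⟩) hdE
      have h5 := N.closure_subset_closure h4 h3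
      rwa [N.closure_closure] at h5
    have hZE : Z ⊆ N.E := Set.union_subset (Set.sdiff_subset.trans hT.subset_ground)
      (Set.sdiff_subset.trans hT'.subset_ground)
    intro t ht
    have h6 := h1 ht
    have h7 : (T \ ((S.erase c : Finset ι) : Set ι)) ∪ (T' \ C') ⊆ N.closure Z := by
      rintro x (⟨hxT, hxS⟩ | hx)
      · by_cases hxc : x = c
        · rw [hxc]; exact h2
        · refine N.mem_closure_of_mem' (Or.inl ⟨hxT, fun hx => hxS ?_⟩) (hT.subset_ground hxT)
          rw [Finset.mem_coe, Finset.mem_erase]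
          exact ⟨hxc, hx⟩
      · exact N.mem_closure_of_mem' (Or.inr hx) (hT'.subset_ground hx.1)
    have h8 := N.closure_subset_closure h7 h6
    rwa [N.closure_closure] at h8

/-- acyclic sets of exchanges are small -/
theorem acyc_card [DecidableEq ι] {T T' C' : Finset ι} (hT : N.IsBase (T : Set ι))
    (hT' : N.IsBase (T' : Set ι)) (hd : Disjoint T T') (hC' : C' ⊆ T') (S : Finset ι)
    (hS : S ⊆ T) (hA : Acyc (Dg N T T' C') S) : S.card + C'.card ≤ T.card := by
  have h1 := acyc_span hT hT' (Finset.disjoint_coe.2 hd) S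
    (Finset.coe_subset.2 hS) hA
  have hZE : ((T : Set ι) \ S) ∪ ((T' : Set ι) \ C') ⊆ N.E :=
    Set.union_subset (Set.sdiff_subset.trans hT.subset_ground)
      (Set.sdiff_subset.trans hT'.subset_ground)
  obtain ⟨B, hB, hBZ⟩ := exists_isBase_subset hT h1 hZE
  have h2 : ((T : Set ι) \ S) ∪ ((T' : Set ι) \ C') = (((T \ S) ∪ (T' \ C') : Finset ι) : Set ι) := by
    push_cast
    rfl
  rw [h2] at hBZ
  have h3 := Set.encard_le_encard hBZ
  rw [hB.encard_eq_encard_of_isBase hT, Set.encard_coe_eq_coe_finsetCard,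
    Set.encard_coe_eq_coe_finsetCard] at h3
  have h4 : T.card ≤ ((T \ S) ∪ (T' \ C')).card := by exact_mod_cast h3
  have h5 := Finset.card_union_le (T \ S) (T' \ C')
  have h6 : T'.card = T.card := by
    have h7 := hT'.encard_eq_encard_of_isBase hT
    rw [Set.encard_coe_eq_coe_finsetCard, Set.encard_coe_eq_coe_finsetCard] at h7
    exact_mod_cast h7
  rw [Finset.card_sdiff_of_subset hS, Finset.card_sdiff_of_subset hC'] at h5
  have h8 := Finset.card_le_card hS
  have h9 := Finset.card_le_card hC'
  omega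

/-- a diagonal pattern of exchanges can be carried out at once -/
theorem diag_exchange [DecidableEq ι] {T : Finset ι} (hT : N.IsBase (T : Set ι)) {m : ℕ}
    {x y : ℕ → ι} (hx : ∀ i < m, x i ∈ T) (hy : ∀ i < m, y i ∉ T)
    (h : ∀ i < m, ∀ j < m, N.IsBase (insert (y j) ((T : Set ι) \ {x i})) ↔ i = j) :
    N.IsBase (((T \ (Finset.range m).image x) ∪ (Finset.range m).image y : Finset ι) : Set ι) ∧
      ((Finset.range m).image x).card = m ∧ ((Finset.range m).image y).card = m := by
  have hxi : ∀ i < m, ∀ j < m, x i = x j → i = j := by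
    intro i hi j hj hij
    rw [← h i hi j hj, hij, h j hj j hj]
  have hyi : ∀ i < m, ∀ j < m, y i = y j → i = j := by
    intro i hi j hj hij
    rw [← h i hi j hj, ← hij, h i hi i hi]
  have hcx : ((Finset.range m).image x).card = m := by
    rw [Finset.card_image_of_injOn, Finset.card_range]
    intro i hi j hj hij
    exact hxi i (by simpa using hi) j (by simpa using hj) hij
  have hcy : ((Finset.range m).image y).card = m := by
    rw [Finset.card_image_of_injOn, Finset.card_range]
    intro i hi j hj hij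
    exact hyi i (by simpa using hi) j (by simpa using hj) hij
  refine ⟨?_, hcx, hcy⟩
  set Z : Finset ι := (T \ (Finset.range m).image x) ∪ (Finset.range m).image y with hZ
  have hyE : ∀ j < m, y j ∈ N.E := fun j hj =>
    ((h j hj j hj).2 rfl).subset_ground (Set.mem_insert _ _)
  have hZE : (Z : Set ι) ⊆ N.E := by
    intro t ht
    rw [Finset.mem_coe, hZ, Finset.mem_union, Finset.mem_sdiff] at ht
    rcases ht with ht | ht
    · exact hT.subset_ground ht.1
    · obtain ⟨j, hj, rfl⟩ := Finset.mem_image.1 ht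
      exact hyE j (by simpa using hj)
  have h1 : (T : Set ι) ⊆ N.closure Z := by
    intro t ht
    by_cases htx : t ∈ (Finset.range m).image x
    · obtain ⟨i, hi, rfl⟩ := Finset.mem_image.1 htx
      have hi' : i < m := by simpa using hi
      refine mem_closure_exch hT (hy i hi') ht ((h i hi' i hi').2 rfl) ?_ ?_
      · rw [Finset.mem_coe, hZ, Finset.mem_union]
        exact Or.inr (Finset.mem_image_of_mem _ hi)
      · intro j hjT hji hb
        rw [Finset.mem_coe, hZ, Finset.mem_union, Finset.mem_sdiff]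
        refine Or.inl ⟨hjT, fun hjx => ?_⟩
        obtain ⟨k, hk, rfl⟩ := Finset.mem_image.1 hjx
        have hk' : k < m := by simpa using hk
        rw [h k hk' i hi'] at hb
        exact hji (by rw [hb])
    · refine N.mem_closure_of_mem' ?_ (hT.subset_ground ht)
      rw [Finset.mem_coe, hZ, Finset.mem_union, Finset.mem_sdiff]
      exact Or.inl ⟨ht, htx⟩
  obtain ⟨B, hB, hBZ⟩ := exists_isBase_subset hT h1 hZE
  have h2 : Z.card ≤ T.card := by
    have h3 := Finset.card_union_le (T \ (Finset.range m).image x) ((Finset.range m).image y)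
    rw [Finset.card_sdiff_of_subset, hcx, hcy] at h3
    · have h4 : m ≤ T.card := by
        rw [← hcx]
        refine Finset.card_le_card ?_
        intro t ht
        obtain ⟨i, hi, rfl⟩ := Finset.mem_image.1 ht
        exact hx i (by simpa using hi)
      rw [← hZ] at h3
      omega
    · intro t ht
      obtain ⟨i, hi, rfl⟩ := Finset.mem_image.1 ht
      exact hx i (by simpa using hi)
  have h5 : B = Z := by
    refine (Finset.finite_toSet Z).eq_of_subset_of_encard_le' hBZ ?_
    rw [hB.encard_eq_encard_of_isBase hT, Set.encard_coe_eq_coe_finsetCard,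
      Set.encard_coe_eq_coe_finsetCard]
    exact_mod_cast h2
  rw [← h5]
  exact hB

/-- **A shortest cycle of exchanges can be carried out at once.** -/
theorem cycle_exchange [DecidableEq ι] {T T' C' S : Finset ι} (hT : N.IsBase (T : Set ι))
    (hT' : N.IsBase (T' : Set ι)) (hd : Disjoint T T') (hC' : C' ⊆ T') (hS : S ⊆ T) {m : ℕ}
    {w : ℕ → ι} (hw : CW (Dg N T T' C') S m w)
    (hmin : ∀ m' < m, ∀ w', ¬ CW (Dg N T T' C') S m' w') :
    ∃ A ⊆ S, ∃ D ⊆ C', A.card = m ∧ D.card = m ∧
      N.IsBase (((T \ A) ∪ D : Finset ι) : Set ι) ∧ N.IsBase (((T' \ D) ∪ A : Finset ι) : Set ι) := by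
  have hch := fun i j (hi : i < m) (hj : j < m) => hw.chordless hmin hi hj
  obtain ⟨h0, h1, h2, h3⟩ := hw
  have h4 : ∀ i, ∃ d, i < m → d ∈ C' ∧ N.IsBase (insert d ((T : Set ι) \ {w i})) ∧
      N.IsBase (insert (w (i + 1)) ((T' : Set ι) \ {d})) := by
    intro i
    by_cases hi : i < m
    · obtain ⟨d, hd1, hd2, hd3⟩ := h3 i hi
      exact ⟨d, fun _ => ⟨hd1, hd2, hd3⟩⟩
    · exact ⟨w i, fun h => absurd h hi⟩
  choose y hy using h4
  have hyT' : ∀ i < m, y i ∈ T' := fun i hi => hC' (hy i hi).1
  have hyT : ∀ i < m, y i ∉ T := fun i hi h => Finset.disjoint_left.1 hd h (hyT' i hi)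
  have hwS : ∀ i < m, w (i + 1) ∈ S := by
    intro i hi
    rcases Nat.eq_or_lt_of_le (show i + 1 ≤ m by omega) with h5 | h5
    · rw [h5, h2]
      exact h1 0 h0
    · exact h1 _ h5
  have hwT' : ∀ i ∈ S, i ∉ T' := fun i hi h => Finset.disjoint_left.1 hd (hS hi) h
  obtain ⟨e1, e2, e3⟩ := diag_exchange hT (m := m) (x := w) (y := y)
    (fun i hi => hS (h1 i hi)) hyT (fun i hi j hj => ⟨fun hb => by
      -- `w i → w (j + 1)`
      have hD : Dg N (T : Set ι) T' C' (w i) (w (j + 1)) := ⟨y j, (hy j hj).1, hb, (hy j hj).2.2⟩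
      rcases Nat.eq_or_lt_of_le (show j + 1 ≤ m by omega) with h5 | h5
      · rw [h5, h2] at hD
        rcases hch i 0 hi h0 hD with h6 | h6
        · omega
        · omega
      · rcases hch i (j + 1) hi h5 hD with h6 | h6
        · omega
        · omega, fun hij => by
      subst hij
      exact (hy i hi).2.1⟩)
  obtain ⟨f1, f2, f3⟩ := diag_exchange hT' (m := m) (x := y) (y := fun i => w (i + 1))
    hyT' (fun i hi => hwT' _ (hwS i hi)) (fun i hi j hj => ⟨fun hb => by
      -- `w i → w (j + 1)`
      have hD : Dg N (T : Set ι) T' C' (w i) (w (j + 1)) := ⟨y i, (hy i hi).1, (hy i hi).2.1, hb⟩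
      rcases Nat.eq_or_lt_of_le (show j + 1 ≤ m by omega) with h5 | h5
      · rw [h5, h2] at hD
        rcases hch i 0 hi h0 hD with h6 | h6
        · omega
        · omega
      · rcases hch i (j + 1) hi h5 hD with h6 | h6
        · omega
        · omega, fun hij => by
      subst hij
      exact (hy i hi).2.2⟩)
  have h7 : (Finset.range m).image (fun i => w (i + 1)) = (Finset.range m).image w := by
    ext t
    rw [Finset.mem_image, Finset.mem_image]
    constructor
    · rintro ⟨i, hi, rfl⟩
      rw [Finset.mem_range] at hi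
      rcases Nat.eq_or_lt_of_le (show i + 1 ≤ m by omega) with h5 | h5
      · exact ⟨0, Finset.mem_range.2 h0, by rw [h5, h2]⟩
      · exact ⟨i + 1, Finset.mem_range.2 h5, rfl⟩
    · rintro ⟨i, hi, rfl⟩
      rw [Finset.mem_range] at hi
      rcases Nat.eq_zero_or_pos i with h5 | h5
      · refine ⟨m - 1, Finset.mem_range.2 (by omega), ?_⟩
        rw [h5, ← h2]
        congr 1
        omega
      · exact ⟨i - 1, Finset.mem_range.2 (by omega), by
          congr 1
          omega⟩
  rw [h7] at f1
  refine ⟨(Finset.range m).image w, ?_, (Finset.range m).image y, ?_, e2, e3, e1, f1⟩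
  · intro t ht
    obtain ⟨i, hi, rfl⟩ := Finset.mem_image.1 ht
    exact h1 i (by simpa using hi)
  · intro t ht
    obtain ⟨i, hi, rfl⟩ := Finset.mem_image.1 ht
    exact (hy i (by simpa using hi)).1

end Pool.Agent.Gap14
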