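import Pool.Agent.Gap14.Step
import Pool.Agent.Near48.Blocks

/-!
# A chain of levels with bounded gaps
-/

set_option autoImplicit false

namespace Pool.Agent.Gap14

open Pool.Agent.Near48 Pool.Agent.Gabow87

variable {r : ℕ}

theorem cond_mono {r L q m0 m m1 : ℕ} (h1 : m0 ≤ m) (h2 : m ≤ m1)
    (h : (m1 - m) * L < q * (2 * (m1 - m) - r)) :
    (m1 - m0) * L < q * (2 * (m1 - m0) - r) := by
  obtain ⟨x, hx⟩ : ∃ x, m1 - m = x := ⟨_, rfl⟩
  obtain ⟨z, hz⟩ : ∃ z, 2 * x - r = z := ⟨_, rfl⟩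
  obtain ⟨d, hd⟩ : ∃ d, m - m0 = d := ⟨_, rfl⟩
  rw [hx, hz] at h
  have hz0 : 0 < z := by
    rcases Nat.eq_zero_or_pos z with h3 | h3
    · rw [h3, Nat.mul_zero] at h
      omega
    · exact h3
  have e1 : m1 - m0 = x + d := by omega
  have e2 : 2 * (x + d) - r = z + 2 * d := by omega
  rw [e1, e2]
  have h4 : L < 2 * q := by
    by_contra hcon
    push Not at hcon
    have h5 : 2 * (x * L) < 2 * (q * z) := by omega
    have h6 : z * L ≤ 2 * (x * L) := by
      have : z ≤ 2 * x := by omega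
      calc z * L ≤ (2 * x) * L := Nat.mul_le_mul_right L this
        _ = 2 * (x * L) := by ring
    have h7 : 2 * (q * z) ≤ z * L := by
      calc 2 * (q * z) = z * (2 * q) := by ring
        _ ≤ z * L := Nat.mul_le_mul_left z hcon
    omega
  calc (x + d) * L = x * L + d * L := by ring
    _ < q * z + d * L := by omega
    _ ≤ q * z + d * (2 * q) := by
        have := Nat.mul_le_mul_left d h4.le
        omega
    _ = q * (z + 2 * d) := by ring

/-- a level soon after `m` -/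
def Near3 (N : Matroid (Fin r ⊕ Fin r)) (σ σ' : Equiv.Perm (Fin r)) (m1 m2 m : ℕ) : Prop :=
  ∃ m', m < m' ∧ m' ≤ m2 ∧ KB N σ σ' m' ∧ m' + m1 ≤ r + 1 + 2 * m

/-- a level soon after `m` -/
def Near4 (N : Matroid (Fin r ⊕ Fin r)) (σ σ' : Equiv.Perm (Fin r)) (L m1 m2 m : ℕ) : Prop :=
  ∀ q, (m1 - m) * L < q * (2 * (m1 - m) - r) →
    ∃ m', m ≤ m' ∧ m' < m + 2 * q * L ∧ m' ≤ m2 ∧ KB N σ σ' m'

theorem iterate (N : Matroid (Fin r ⊕ Fin r)) {L : ℕ} (hL : 1 ≤ L) (hr : r ≤ 2 ^ L) {m1 : ℕ}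
    (h1r : m1 ≤ r) (n : ℕ) : ∀ (σ σ' : Equiv.Perm (Fin r)) (m0 : ℕ), m0 ≤ m1 → m1 - m0 ≤ n →
    KB N σ σ' m0 → (∀ m < m0, Near3 N σ σ' m1 m0 m ∧ Near4 N σ σ' L m1 m0 m) →
    ∃ (τ τ' : Equiv.Perm (Fin r)) (m2 : ℕ), m2 ≤ m1 ∧ 2 * (m1 - m2) ≤ r ∧
      (∀ m, m ≤ m0 ∨ m1 ≤ m → ∀ i, (τ.symm i).val < m ↔ (σ.symm i).val < m) ∧
      (∀ m, m ≤ m0 ∨ m1 ≤ m → ∀ i, (τ'.symm i).val < m ↔ (σ'.symm i).val < m) ∧
      ∀ m < m2, Near3 N τ τ' m1 m2 m ∧ Near4 N τ τ' L m1 m2 m := by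
  induction n with
  | zero =>
    intro σ σ' m0 hm hn _ hF
    exact ⟨σ, σ', m0, hm, by omega, fun _ _ _ => Iff.rfl, fun _ _ _ => Iff.rfl, hF⟩
  | succ n ih =>
    intro σ σ' m0 hm hn hK hF
    rcases Nat.lt_or_ge r (2 * (m1 - m0)) with h | h
    · obtain ⟨a, τ, τ', ha, ham, h1, h1', hKa, hb3, hb4⟩ := step N hL hr σ σ' h1r hK h
      obtain ⟨ρ, ρ', m2, hm2, hm2', h2, h2', hF2⟩ := ih τ τ' (m0 + a) ham (by omega) hKa (by
        intro m hm'
        rcases Nat.lt_or_ge m m0 with hlt | hge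
        · obtain ⟨⟨m', e1, e2, e3, e4⟩, hF4⟩ := hF m hlt
          refine ⟨⟨m', e1, by omega, e3.congr (h1 m' (Or.inl e2)) (h1' m' (Or.inl e2)), e4⟩, ?_⟩
          intro q hq
          obtain ⟨m', f1, f2, f3, f4⟩ := hF4 q hq
          exact ⟨m', f1, f2, by omega, f4.congr (h1 m' (Or.inl f3)) (h1' m' (Or.inl f3))⟩
        · refine ⟨⟨m0 + a, hm', le_rfl, hKa, by omega⟩, ?_⟩
          intro q hq
          have hq2 := cond_mono hge (by omega) hq
          have h3 := hb4 q hq2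
          have hq0 : 0 < q := by
            rcases Nat.eq_zero_or_pos q with h4 | h4
            · rw [h4, Nat.zero_mul] at hq
              omega
            · exact h4
          have hqL : 0 < 2 * q * L := by positivity
          rcases Nat.eq_or_lt_of_le hge with h5 | h5
          · subst h5
            exact ⟨m0, le_rfl, by omega, by omega,
              hK.congr (h1 m0 (Or.inl le_rfl)) (h1' m0 (Or.inl le_rfl))⟩
          · exact ⟨m0 + a, hm'.le, by omega, le_rfl, hKa⟩)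
      refine ⟨ρ, ρ', m2, hm2, hm2', ?_, ?_, hF2⟩
      · intro m hm3 i
        rw [h2 m (by omega) i]
        exact h1 m hm3 i
      · intro m hm3 i
        rw [h2' m (by omega) i]
        exact h1' m hm3 i
    · exact ⟨σ, σ', m0, hm, by omega, fun _ _ _ => Iff.rfl, fun _ _ _ => Iff.rfl, hF⟩

section Blocks

variable {α : Type*} {M : Matroid α} {b b' : Fin r → α}

theorem KB.block (hb : Function.Injective b) (hB : M.IsBase (Set.range b))
    {σ σ' : Equiv.Perm (Fin r)} {m : ℕ} (h : KB (M.comap (Sum.elim b b')) σ σ' m)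
    (j : Fin (r + r)) (hj : j.val % r = m) : M.IsBase (block (b ∘ σ) (b' ∘ σ') j) := by
  have hj2 := j.isLt
  rcases Nat.lt_or_ge j.val r with h1 | h1
  · rw [Nat.mod_eq_of_lt h1] at hj
    rw [block_image, block_Tt _ _ _ h1, hj]
    exact isBase_of_indep hb hB h.1.indep (card_Tt _ _ _)
  · have hj3 : j.val - r = m := by
      rw [← hj, ← Nat.mod_eq_of_lt (show j.val - r < r by omega), Nat.mod_eq_sub_mod h1]
    rw [block_image, block_Ss _ _ _ h1, hj3]
    exact isBase_of_indep hb hB h.2.indep (card_Ss _ _ _)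

theorem kb_of_block (hb : Function.Injective b) (hB : M.IsBase (Set.range b))
    {σ σ' : Equiv.Perm (Fin r)} {m : ℕ} (hmr : m < r)
    (hm : ∀ j : Fin (r + r), j.val % r = m → M.IsBase (Gabow87.block (b ∘ σ) (b' ∘ σ') j)) :
    KB (M.comap (Sum.elim b b')) σ σ' m := by
  have h1 := hm ⟨m, by omega⟩ (Nat.mod_eq_of_lt hmr)
  have h2 := hm ⟨r + m, by omega⟩ (by
    change (r + m) % r = m
    rw [Nat.add_mod_left, Nat.mod_eq_of_lt hmr])
  rw [block_image, block_Tt _ _ _ hmr] at h1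
  rw [block_image, block_Ss _ _ _ (by change r ≤ r + m; omega)] at h2
  have h3 : (⟨r + m, by omega⟩ : Fin (r + r)).val - r = m := by
    change r + m - r = m
    omega
  rw [h3] at h2
  exact ⟨isBase_comap hb hB (indep_of_isBase hb hB (card_Tt _ _ _) h1) (card_Tt _ _ _),
    isBase_comap hb hB (indep_of_isBase hb hB (card_Ss _ _ _) h2) (card_Ss _ _ _)⟩

end Blocks

end Pool.Agent.Gap14
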