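import Mathlib.Logic.Equiv.Fintype
import Mathlib.Tactic

/-!
# Reordering inside an interval
-/

set_option autoImplicit false

namespace Pool.Agent.Gap14

theorem exists_move1 {r m0 m1 a : ℕ} (h01 : m0 + a ≤ m1) (h1r : m1 ≤ r) (Q : Finset (Fin r))
    (hQ : ∀ i ∈ Q, m0 ≤ i.val ∧ i.val < m1) (hc : Q.card = a) :
    ∃ π : Equiv.Perm (Fin r), (∀ i : Fin r, i.val < m0 ∨ m1 ≤ i.val → π i = i) ∧
      ∀ i : Fin r, (m0 ≤ i.val ∧ i.val < m0 + a) ↔ π i ∈ Q := by
  let f : {i : Fin r // i.val < m0 ∨ m1 ≤ i.val} ⊕ Fin a → Fin r :=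
    Sum.elim (fun i => i.1) (fun t => ⟨m0 + t.val, by have := t.isLt; omega⟩)
  let g : {i : Fin r // i.val < m0 ∨ m1 ≤ i.val} ⊕ Fin a → Fin r :=
    Sum.elim (fun i => i.1) (fun t => ((Q.equivFinOfCardEq hc).symm t).1)
  have hgQ : ∀ t, g (Sum.inr t) ∈ Q := fun t => ((Q.equivFinOfCardEq hc).symm t).2
  have hf : Function.Injective f := by
    rintro (⟨i, hi⟩ | t) (⟨j, hj⟩ | u) h
    · simp only [f, Sum.elim_inl] at h
      subst h
      rfl
    · simp only [f, Sum.elim_inl, Sum.elim_inr] at h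
      subst h
      have := u.isLt
      dsimp only at hi
      omega
    · simp only [f, Sum.elim_inl, Sum.elim_inr] at h
      subst h
      have := t.isLt
      dsimp only at hj
      omega
    · simp only [f, Sum.elim_inr, Fin.mk.injEq] at h
      congr 1
      exact Fin.ext (by omega)
  have hg : Function.Injective g := by
    rintro (⟨i, hi⟩ | t) (⟨j, hj⟩ | u) h
    · simp only [g, Sum.elim_inl] at h
      subst h
      rfl
    · exfalso
      have h2 := hQ _ (hgQ u)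
      rw [← h] at h2
      simp only [g, Sum.elim_inl] at h2
      omega
    · exfalso
      have h2 := hQ _ (hgQ t)
      rw [h] at h2
      simp only [g, Sum.elim_inl] at h2
      omega
    · simp only [g, Sum.elim_inr] at h
      congr 1
      exact (Q.equivFinOfCardEq hc).symm.injective (Subtype.ext h)
  obtain ⟨π, hπ⟩ := Equiv.Perm.exists_extending_pair f g hf hg
  have hfix : ∀ i : Fin r, i.val < m0 ∨ m1 ≤ i.val → π i = i := fun i hi => hπ (Sum.inl ⟨i, hi⟩)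
  refine ⟨π, hfix, fun i => ⟨fun hi => ?_, fun hi => ?_⟩⟩
  · have h2 := hπ (Sum.inr ⟨i.val - m0, by omega⟩)
    have h3 : f (Sum.inr ⟨i.val - m0, by omega⟩) = i := by
      simp only [f, Sum.elim_inr]
      apply Fin.ext
      dsimp only
      omega
    rw [h3] at h2
    rw [h2]
    exact hgQ _
  · obtain ⟨t, ht⟩ : ∃ t, g (Sum.inr t) = π i := by
      refine ⟨Q.equivFinOfCardEq hc ⟨π i, hi⟩, ?_⟩
      simp only [g, Sum.elim_inr, Equiv.symm_apply_apply]
    rw [← hπ] at ht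
    have h2 := π.injective ht
    have := t.isLt
    rw [← h2]
    simp only [f, Sum.elim_inr]
    omega

theorem exists_move {r m0 m1 a : ℕ} (σ : Equiv.Perm (Fin r)) (A : Finset (Fin r))
    (h01 : m0 + a ≤ m1) (h1r : m1 ≤ r)
    (hA : ∀ i ∈ A, m0 ≤ (σ.symm i).val ∧ (σ.symm i).val < m1) (hc : A.card = a) :
    ∃ τ : Equiv.Perm (Fin r),
      (∀ m, m ≤ m0 ∨ m1 ≤ m → ∀ i, (τ.symm i).val < m ↔ (σ.symm i).val < m) ∧
      ∀ i, (τ.symm i).val < m0 + a ↔ ((σ.symm i).val < m0 ∨ i ∈ A) := by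
  obtain ⟨π, h1, h2⟩ := exists_move1 h01 h1r (A.map σ.symm.toEmbedding) (by
    intro i hi
    obtain ⟨j, hj, rfl⟩ := Finset.mem_map.1 hi
    exact hA j hj) (by rw [Finset.card_map, hc])
  have hsymm : ∀ i, (σ * π).symm i = π.symm (σ.symm i) := by
    intro i
    change (σ * π)⁻¹ i = _
    rw [mul_inv_rev]
    rfl
  have hfix : ∀ k : Fin r, (k.val < m0 ∨ m1 ≤ k.val) ∨ ((π k).val < m0 ∨ m1 ≤ (π k).val) →
      π k = k := by
    rintro k (hk | hk)
    · exact h1 k hk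
    · exact π.injective (h1 _ hk)
  refine ⟨σ * π, ?_, ?_⟩
  · intro m hm i
    rw [hsymm]
    obtain ⟨k, hk⟩ : ∃ k, π k = σ.symm i := ⟨π.symm (σ.symm i), by simp⟩
    rw [← hk, Equiv.symm_apply_apply]
    by_cases h : (k.val < m0 ∨ m1 ≤ k.val) ∨ ((π k).val < m0 ∨ m1 ≤ (π k).val)
    · rw [hfix k h]
    · omega
  · intro i
    rw [hsymm]
    obtain ⟨k, hk⟩ : ∃ k, π k = σ.symm i := ⟨π.symm (σ.symm i), by simp⟩
    have h3 : i ∈ A ↔ π k ∈ A.map σ.symm.toEmbedding := by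
      rw [hk]
      simp
    rw [h3, ← h2, ← hk, Equiv.symm_apply_apply]
    by_cases h : (k.val < m0 ∨ m1 ≤ k.val) ∨ ((π k).val < m0 ∨ m1 ≤ (π k).val)
    · rw [hfix k h]
      omega
    · omega

end Pool.Agent.Gap14
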