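import Pool.Agent.Gap14.Rch

/-!
# More than half of the pairs are reachable
-/

set_option autoImplicit false

namespace Pool.Agent.Gap14

variable {n : ℕ} {G : Finset (Fin n) → Finset (Fin n) → Prop} {b : ℕ}

/-- the pairs of level `i` -/
def Lev (n i : ℕ) : Finset (Finset (Fin n) × Finset (Fin n)) :=
  Finset.powersetCard i Finset.univ ×ˢ Finset.powersetCard i Finset.univ

theorem mem_Lev {i : ℕ} {P : Finset (Fin n) × Finset (Fin n)} :
    P ∈ Lev n i ↔ P.1.card = i ∧ P.2.card = i := by
  simp [Lev, Finset.mem_powersetCard]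

theorem card_Lev (i : ℕ) : (Lev n i).card = n.choose i * n.choose i := by
  rw [Lev, Finset.card_product, Finset.card_powersetCard, Finset.card_univ, Fintype.card_fin]

open Classical in
/-- the pairs of level `i` with more than `m` missing elements -/
noncomputable def Bd (G : Finset (Fin n) → Finset (Fin n) → Prop) (m i : ℕ) :
    Finset (Finset (Fin n) × Finset (Fin n)) :=
  (Lev n i).filter fun P => ¬ Dfc G m P.1 P.2

theorem mem_Bd {m i : ℕ} {P : Finset (Fin n) × Finset (Fin n)} :
    P ∈ Bd G m i ↔ (P.1.card = i ∧ P.2.card = i) ∧ ¬ Dfc G m P.1 P.2 := by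
  classical
  rw [Bd, Finset.mem_filter, mem_Lev]

/-- counting the pairs of the next level -/
theorem double_count (m i : ℕ) :
    (Bd G m (i + 1)).card * ((i + 1) * (i + 1)) ≤
      ∑ P ∈ Lev n i, (Ext G m P.1 P.2).card := by
  classical
  have h1 : (Bd G m (i + 1)).card * ((i + 1) * (i + 1)) =
      ((Bd G m (i + 1)).sigma fun P => P.1 ×ˢ P.2).card := by
    rw [Finset.card_sigma, Finset.sum_congr rfl (g := fun _ => (i + 1) * (i + 1)),
      Finset.sum_const, smul_eq_mul]
    intro P hP
    rw [Finset.card_product, (mem_Bd.1 hP).1.1, (mem_Bd.1 hP).1.2]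
  rw [h1, ← Finset.card_sigma]
  refine Finset.card_le_card_of_injOn
    (fun z => ⟨(z.1.1.erase z.2.1, z.1.2.erase z.2.2), z.2⟩) ?_ ?_
  · rintro ⟨P, z⟩ hz
    rw [Finset.mem_coe, Finset.mem_sigma] at hz
    obtain ⟨hP, hz⟩ := hz
    obtain ⟨⟨h2, h3⟩, h4⟩ := mem_Bd.1 hP
    rw [Finset.mem_product] at hz
    dsimp only at hz h2 h3 h4
    rw [Finset.mem_coe, Finset.mem_sigma, mem_Lev, mem_Ext]
    dsimp only
    refine ⟨⟨?_, ?_⟩, ⟨Finset.notMem_erase _ _, Finset.notMem_erase _ _⟩, ?_⟩
    · rw [Finset.card_erase_of_mem hz.1, h2]; rfl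
    · rw [Finset.card_erase_of_mem hz.2, h3]; rfl
    · rw [Finset.insert_erase hz.1, Finset.insert_erase hz.2]
      exact h4
  · rintro ⟨⟨P, Q⟩, ⟨x, y⟩⟩ hz ⟨⟨P', Q'⟩, ⟨x', y'⟩⟩ hz' heq
    rw [Finset.mem_coe, Finset.mem_sigma] at hz hz'
    obtain ⟨-, hz⟩ := hz
    obtain ⟨-, hz'⟩ := hz'
    rw [Finset.mem_product] at hz hz'
    dsimp only at hz hz' heq
    rw [Sigma.mk.injEq] at heq
    obtain ⟨e1, e2⟩ := heq
    have e2 := eq_of_heq e2
    rw [Prod.mk.injEq] at e1 e2
    obtain ⟨rfl, rfl⟩ := e2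
    have e3 : P = P' := by
      rw [← Finset.insert_erase hz.1, ← Finset.insert_erase hz'.1, e1.1]
    have e4 : Q = Q' := by
      rw [← Finset.insert_erase hz.2, ← Finset.insert_erase hz'.2, e1.2]
    rw [e3, e4]

open Classical in
theorem card_Bd_eq_sum (m i : ℕ) :
    (Bd G m i).card = ∑ P ∈ Lev n i, if ¬ Dfc G m P.1 P.2 then 1 else 0 := by
  rw [Bd, Finset.card_filter]

/-- the recursion for `m ≥ 1` -/
theorem rec_succ (hG : Few G b) (m i : ℕ) (hb : b ≤ n - i) :
    (Bd G (m + 1) (i + 1)).card * ((i + 1) * (i + 1)) ≤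
      (n - i - b) * (n - i - b) * (Bd G (m + 2) i).card +
      2 * b * (n - i - b) * (Bd G (m + 1) i).card + b * b * (Bd G m i).card := by
  classical
  refine (double_count _ _).trans ?_
  rw [card_Bd_eq_sum, card_Bd_eq_sum, card_Bd_eq_sum, Finset.mul_sum, Finset.mul_sum,
    Finset.mul_sum, ← Finset.sum_add_distrib, ← Finset.sum_add_distrib]
  refine Finset.sum_le_sum ?_
  rintro ⟨P, Q⟩ hP
  rw [mem_Lev] at hP
  obtain ⟨hP, hQ⟩ := hP
  dsimp only at hP hQ ⊢
  obtain ⟨N, hN⟩ : ∃ N, n - i = N + b := ⟨n - i - b, by omega⟩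
  have e1 : n - i - b = N := by omega
  rw [e1]
  by_cases h0 : Dfc G m P Q
  · -- no bad extension
    have h1 : Ext G (m + 1) P Q = ∅ := by
      rw [Finset.eq_empty_iff_forall_notMem]
      intro p hp
      exact (mem_Ext.1 hp).2 (h0.insert _ _)
    rw [h1, Finset.card_empty]
    exact Nat.zero_le _
  by_cases h1 : Dfc G (m + 1) P Q
  · have h2 := card_Ext_up hG hP hQ h1 h0
    have h3 : Dfc G (m + 2) P Q := h1.mono (by omega)
    simp only [h0, h1, h3, not_true, not_false_eq_true, if_true, if_false, mul_one, mul_zero]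
    omega
  by_cases h2 : Dfc G (m + 2) P Q
  · have h3 := card_Ext_down hG hP hQ h2 h1
    rw [e1, hN] at h3
    simp only [h0, h1, h2, not_true, not_false_eq_true, if_true, if_false, mul_one, mul_zero]
    nlinarith
  · have h3 := card_Ext_le (G := G) (m + 1) i hP hQ
    rw [hN] at h3
    simp only [h0, h1, h2, not_false_eq_true, if_true, mul_one]
    nlinarith

/-- the recursion for `m = 0` -/
theorem rec_zero (hG : Few G b) (i : ℕ) (hb : b ≤ n - i) :
    (Bd G 0 (i + 1)).card * ((i + 1) * (i + 1)) ≤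
      (n - i - b) * (n - i - b) * (Bd G 1 i).card +
      b * (n - i - b) * (Bd G 0 i).card + b * (n - i) * (n.choose i * n.choose i) := by
  classical
  refine (double_count _ _).trans ?_
  rw [card_Bd_eq_sum, card_Bd_eq_sum, ← card_Lev, Finset.card_eq_sum_ones, Finset.mul_sum,
    Finset.mul_sum, Finset.mul_sum, ← Finset.sum_add_distrib, ← Finset.sum_add_distrib]
  refine Finset.sum_le_sum ?_
  rintro ⟨P, Q⟩ hP
  rw [mem_Lev] at hP
  obtain ⟨hP, hQ⟩ := hP
  dsimp only at hP hQ ⊢
  obtain ⟨N, hN⟩ : ∃ N, n - i = N + b := ⟨n - i - b, by omega⟩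
  have e1 : n - i - b = N := by omega
  rw [e1]
  by_cases h0 : Dfc G 0 P Q
  · have h1 := card_Ext_zero hG hP hQ h0
    exact h1.trans (by omega)
  by_cases h1 : Dfc G 1 P Q
  · have h2 := card_Ext_down hG hP hQ h1 h0
    rw [e1, hN] at h2
    simp only [h0, h1, not_true, not_false_eq_true, if_true, if_false, mul_one, mul_zero]
    rw [hN]
    nlinarith
  · have h3 := card_Ext_le (G := G) 0 i hP hQ
    rw [hN] at h3
    simp only [h0, h1, not_false_eq_true, if_true, mul_one]
    rw [hN]
    nlinarith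

theorem Bd_zero (m : ℕ) : Bd G m 0 = ∅ := by
  rw [Finset.eq_empty_iff_forall_notMem]
  rintro ⟨P, Q⟩ h
  obtain ⟨⟨h1, h2⟩, h3⟩ := mem_Bd.1 h
  rw [Finset.card_eq_zero] at h1 h2
  apply h3
  rw [h1, h2]
  exact Reach.zero.dfc.mono (Nat.zero_le _)

/-- **The number of missing elements is small for most pairs.** -/
theorem card_Bd_le (hG : Few G b) (i : ℕ) (hi : i ≤ n) (hb : i = 0 ∨ 5 * b + 2 * i ≤ 2 * n + 2) :
    ∀ m, 3 * 9 ^ m * (Bd G m i).card ≤ 2 * 4 ^ m * (n.choose i * n.choose i) := by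
  induction i with
  | zero =>
    intro m
    rw [Bd_zero, Finset.card_empty, Nat.mul_zero]
    exact Nat.zero_le _
  | succ i ih =>
    intro m
    have ih := ih (by omega) (by omega)
    obtain ⟨N, hN⟩ : ∃ N, n - i = N + b := ⟨n - i - b, by omega⟩
    have e1 : n - i - b = N := by omega
    have hNb : 3 * b ≤ 2 * N := by omega
    have e2 : n.choose (i + 1) * (i + 1) = n.choose i * (N + b) := by
      rw [← hN]
      exact Nat.choose_succ_right_eq n i
    have hpos : 0 < (i + 1) * (i + 1) := by positivity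
    refine Nat.le_of_mul_le_mul_right ?_ hpos
    have e3 : n.choose (i + 1) * n.choose (i + 1) * ((i + 1) * (i + 1)) =
        n.choose i * n.choose i * ((N + b) * (N + b)) := by
      calc _ = (n.choose (i + 1) * (i + 1)) * (n.choose (i + 1) * (i + 1)) := by ring
        _ = _ := by rw [e2]; ring
    have e3' : 2 * 4 ^ m * (n.choose (i + 1) * n.choose (i + 1)) * ((i + 1) * (i + 1)) =
        2 * 4 ^ m * (n.choose i * n.choose i * ((N + b) * (N + b))) := by
      rw [← e3]; ring
    rw [e3']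
    set C := n.choose i * n.choose i with hC
    have hq1 : b * (3 * b) ≤ b * (2 * N) := Nat.mul_le_mul_left _ hNb
    have hq2 : N * (3 * b) ≤ N * (2 * N) := Nat.mul_le_mul_left _ hNb
    rcases m with _ | m
    · have h1 := rec_zero hG i (by omega)
      rw [e1, hN, ← hC] at h1
      have h2 := ih 0
      have h3 := ih 1
      rw [pow_zero, pow_zero, mul_one, mul_one] at h2
      rw [pow_one, pow_one] at h3
      have h5 : N * N * (3 * 9 * (Bd G 1 i).card) ≤ N * N * (2 * 4 * C) :=
        Nat.mul_le_mul_left _ h3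
      have h6 : b * N * (3 * (Bd G 0 i).card) ≤ b * N * (2 * C) := Nat.mul_le_mul_left _ h2
      have h7 : C * (8 * (N * N) + 18 * (b * N) + 27 * (b * (N + b))) ≤
          C * (18 * ((N + b) * (N + b))) := by
        refine Nat.mul_le_mul_left _ ?_
        nlinarith
      have h8 : 27 * ((Bd G 0 (i + 1)).card * ((i + 1) * (i + 1))) ≤
          C * (18 * ((N + b) * (N + b))) := by
        calc 27 * ((Bd G 0 (i + 1)).card * ((i + 1) * (i + 1)))
            ≤ 27 * (N * N * (Bd G 1 i).card + b * N * (Bd G 0 i).card + b * (N + b) * C) :=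
              Nat.mul_le_mul_left _ h1
          _ = N * N * (3 * 9 * (Bd G 1 i).card) + 9 * (b * N * (3 * (Bd G 0 i).card)) +
              27 * (b * (N + b) * C) := by ring
          _ ≤ N * N * (2 * 4 * C) + 9 * (b * N * (2 * C)) + 27 * (b * (N + b) * C) := by omega
          _ = C * (8 * (N * N) + 18 * (b * N) + 27 * (b * (N + b))) := by ring
          _ ≤ _ := h7
      rw [pow_zero, pow_zero, mul_one, mul_one]
      nlinarith
    · have h1 := rec_succ hG m i (by omega)
      rw [e1] at h1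
      have h2 := ih m
      have h3 := ih (m + 1)
      have h4 := ih (m + 2)
      set A0 := (Bd G m i).card
      set A1 := (Bd G (m + 1) i).card
      set A2 := (Bd G (m + 2) i).card
      set A := (Bd G (m + 1) (i + 1)).card
      have a1 : 3 * 9 ^ (m + 1) = 9 * (3 * 9 ^ m) := by ring
      have a2 : 3 * 9 ^ (m + 2) = 81 * (3 * 9 ^ m) := by ring
      have a3 : 2 * 4 ^ (m + 1) = 4 * (2 * 4 ^ m) := by ring
      have a4 : 2 * 4 ^ (m + 2) = 16 * (2 * 4 ^ m) := by ring
      rw [a1, a3] at h3 ⊢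
      rw [a2, a4] at h4
      set q := 3 * 9 ^ m
      set w := 2 * 4 ^ m
      have h5 : N * N * (81 * q * A2) ≤ N * N * (16 * w * C) := Nat.mul_le_mul_left _ h4
      have h6 : b * N * (9 * q * A1) ≤ b * N * (4 * w * C) := Nat.mul_le_mul_left _ h3
      have h7 : b * b * (q * A0) ≤ b * b * (w * C) := Nat.mul_le_mul_left _ h2
      have h8 : w * C * (16 * (N * N) + 72 * (b * N) + 81 * (b * b)) ≤
          w * C * (36 * ((N + b) * (N + b))) := by
        refine Nat.mul_le_mul_left _ ?_
        nlinarith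
      have h9 : 81 * q * (A * ((i + 1) * (i + 1))) ≤
          81 * q * (N * N * A2 + 2 * b * N * A1 + b * b * A0) := Nat.mul_le_mul_left _ h1
      have h10 : 81 * q * (N * N * A2 + 2 * b * N * A1 + b * b * A0) =
          N * N * (81 * q * A2) + 18 * (b * N * (9 * q * A1)) + 81 * (b * b * (q * A0)) := by
        ring
      have h11 : N * N * (81 * q * A2) + 18 * (b * N * (9 * q * A1)) + 81 * (b * b * (q * A0)) ≤
          w * C * (36 * ((N + b) * (N + b))) := by
        calc _ ≤ N * N * (16 * w * C) + 18 * (b * N * (4 * w * C)) + 81 * (b * b * (w * C)) := by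
              omega
          _ = w * C * (16 * (N * N) + 72 * (b * N) + 81 * (b * b)) := by ring
          _ ≤ _ := h8
      have h12 : 81 * q * (A * ((i + 1) * (i + 1))) =
          9 * (9 * q * A * ((i + 1) * (i + 1))) := by ring
      have h13 : w * C * (36 * ((N + b) * (N + b))) =
          9 * (4 * w * (C * ((N + b) * (N + b)))) := by ring
      omega

end Pool.Agent.Gap14
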