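import Mathlib.Data.Finset.Powerset
import Mathlib.Data.Nat.Choose.Bounds
import Mathlib.Tactic

/-!
# Reachable pairs of sets and a random walk argument

`G X Y` says that the pair `(X, Y)` of subsets of `Fin n` (of the same size) is good. `Reach` is
reachability from `(∅, ∅)` by adding one element on both sides, all pairs being good. If every good
pair has few bad extensions then more than half of the pairs of the middle level are reachable.
-/

set_option autoImplicit false

namespace Pool.Agent.Gap14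

variable {n : ℕ}

/-- reachable from the empty pair through good pairs -/
inductive Reach (G : Finset (Fin n) → Finset (Fin n) → Prop) :
    Finset (Fin n) → Finset (Fin n) → Prop
  | zero : Reach G ∅ ∅
  | step {X Y : Finset (Fin n)} {x y : Fin n} : Reach G X Y → x ∉ X → y ∉ Y →
      G (insert x X) (insert y Y) → Reach G (insert x X) (insert y Y)

theorem Reach.card_eq {G : Finset (Fin n) → Finset (Fin n) → Prop} {X Y : Finset (Fin n)}
    (h : Reach G X Y) : X.card = Y.card := by
  induction h with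
  | zero => rfl
  | step _ hx hy _ ih => rw [Finset.card_insert_of_notMem hx, Finset.card_insert_of_notMem hy, ih]

theorem Reach.good {G : Finset (Fin n) → Finset (Fin n) → Prop} (h0 : G ∅ ∅)
    {X Y : Finset (Fin n)} (h : Reach G X Y) : G X Y := by
  cases h with
  | zero => exact h0
  | step _ _ _ h => exact h

/-- a reachable pair with at most `m` missing elements on both sides -/
def Dfc (G : Finset (Fin n) → Finset (Fin n) → Prop) (m : ℕ) (P Q : Finset (Fin n)) : Prop :=
  ∃ X ⊆ P, ∃ Y ⊆ Q, Reach G X Y ∧ P.card ≤ X.card + m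

theorem Dfc.mono {G : Finset (Fin n) → Finset (Fin n) → Prop} {m m' : ℕ} (h : m ≤ m')
    {P Q : Finset (Fin n)} (hD : Dfc G m P Q) : Dfc G m' P Q := by
  obtain ⟨X, hX, Y, hY, h1, h2⟩ := hD
  exact ⟨X, hX, Y, hY, h1, by omega⟩

theorem Dfc.reach {G : Finset (Fin n) → Finset (Fin n) → Prop} {P Q : Finset (Fin n)}
    (hPQ : P.card = Q.card) (hD : Dfc G 0 P Q) : Reach G P Q := by
  obtain ⟨X, hX, Y, hY, h1, h2⟩ := hD
  have e1 := Finset.eq_of_subset_of_card_le hX h2
  have e2 := Finset.eq_of_subset_of_card_le hY (by rw [← h1.card_eq]; omega)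
  rw [← e1, ← e2]
  exact h1

theorem Reach.dfc {G : Finset (Fin n) → Finset (Fin n) → Prop} {P Q : Finset (Fin n)}
    (h : Reach G P Q) : Dfc G 0 P Q :=
  ⟨P, Finset.Subset.refl _, Q, Finset.Subset.refl _, h, by omega⟩

theorem Dfc.insert {G : Finset (Fin n) → Finset (Fin n) → Prop} {m : ℕ} {P Q : Finset (Fin n)}
    (hD : Dfc G m P Q) (x y : Fin n) : Dfc G (m + 1) (insert x P) (insert y Q) := by
  obtain ⟨X, hX, Y, hY, h1, h2⟩ := hD
  refine ⟨X, hX.trans (Finset.subset_insert _ _), Y, hY.trans (Finset.subset_insert _ _), h1, ?_⟩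
  have := Finset.card_insert_le x P
  omega

open Classical in
/-- the extensions `(x, y)` of `(P, Q)` after which more than `m` elements are missing -/
noncomputable def Ext (G : Finset (Fin n) → Finset (Fin n) → Prop) (m : ℕ)
    (P Q : Finset (Fin n)) : Finset (Fin n × Fin n) :=
  (Pᶜ ×ˢ Qᶜ).filter fun p => ¬ Dfc G m (insert p.1 P) (insert p.2 Q)

theorem mem_Ext {G : Finset (Fin n) → Finset (Fin n) → Prop} {m : ℕ}
    {P Q : Finset (Fin n)} {p : Fin n × Fin n} :
    p ∈ Ext G m P Q ↔ (p.1 ∉ P ∧ p.2 ∉ Q) ∧ ¬ Dfc G m (insert p.1 P) (insert p.2 Q) := by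
  simp [Ext]

/-- the hypothesis: few bad extensions with a given first or second element -/
structure Few (G : Finset (Fin n) → Finset (Fin n) → Prop) (b : ℕ) : Prop where
  zero : G ∅ ∅
  left : ∀ X Y : Finset (Fin n), X.card = Y.card → G X Y → ∀ x, x ∉ X →
    ∃ S : Finset (Fin n), S.card ≤ b ∧ ∀ y, y ∉ Y → y ∉ S → G (insert x X) (insert y Y)
  right : ∀ X Y : Finset (Fin n), X.card = Y.card → G X Y → ∀ y, y ∉ Y →
    ∃ S : Finset (Fin n), S.card ≤ b ∧ ∀ x, x ∉ X → x ∉ S → G (insert x X) (insert y Y)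

variable {G : Finset (Fin n) → Finset (Fin n) → Prop} {b : ℕ}

theorem card_Ext_le (m i : ℕ) {P Q : Finset (Fin n)} (hP : P.card = i)
    (hQ : Q.card = i) : (Ext G m P Q).card ≤ (n - i) * (n - i) := by
  classical
  refine (Finset.card_filter_le _ _).trans ?_
  rw [Finset.card_product, Finset.card_compl, Finset.card_compl, Fintype.card_fin, hP, hQ]

/-- from a reachable pair -/
theorem card_Ext_zero (hG : Few G b) {i : ℕ} {P Q : Finset (Fin n)} (hP : P.card = i)
    (hQ : Q.card = i) (h : Dfc G 0 P Q) : (Ext G 0 P Q).card ≤ b * (n - i) := by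
  classical
  have hR := h.reach (by omega)
  have h1 : Ext G 0 P Q ⊆ Pᶜ.biUnion fun x =>
      (Ext G 0 P Q).filter fun p => p.1 = x := by
    intro p hp
    rw [Finset.mem_biUnion]
    refine ⟨p.1, ?_, Finset.mem_filter.2 ⟨hp, rfl⟩⟩
    rw [Finset.mem_compl]
    exact (mem_Ext.1 hp).1.1
  refine (Finset.card_le_card h1).trans ((Finset.card_biUnion_le_card_mul _ _ b ?_).trans ?_)
  · intro x hx
    rw [Finset.mem_compl] at hx
    obtain ⟨S, hS, h2⟩ := hG.left P Q (by omega) (hR.good hG.zero) x hx
    refine le_trans ?_ hS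
    refine Finset.card_le_card_of_injOn (fun p => p.2) ?_ ?_
    · intro p hp
      rw [Finset.mem_coe, Finset.mem_filter] at hp
      obtain ⟨hp, hpx⟩ := hp
      obtain ⟨⟨h3, h4⟩, h5⟩ := mem_Ext.1 hp
      by_contra h6
      apply h5
      rw [hpx]
      exact (hR.step hx h4 (h2 p.2 h4 h6)).dfc
    · intro p hp q hq hpq
      rw [Finset.mem_coe, Finset.mem_filter] at hp hq
      exact Prod.ext (hp.2.trans hq.2.symm) hpq
  · rw [Finset.card_compl, Fintype.card_fin, hP, Nat.mul_comm]

/-- `(x, y)` makes the number of missing elements larger -/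
theorem card_Ext_up (hG : Few G b) {i m : ℕ} {P Q : Finset (Fin n)} (hP : P.card = i)
    (hQ : Q.card = i) (h : Dfc G m P Q) (h' : ¬ Dfc G (m - 1) P Q) :
    (Ext G m P Q).card ≤ b * b := by
  classical
  obtain ⟨X, hX, Y, hY, hR, hc⟩ := h
  have hXc : X.card < P.card := by
    by_contra h1
    exact h' ⟨X, hX, Y, hY, hR, by omega⟩
  have hYc : Y.card < Q.card := by rw [← hR.card_eq]; omega
  obtain ⟨x0, hx0, hx0'⟩ := Finset.exists_mem_notMem_of_card_lt_card hXc
  obtain ⟨y0, hy0, hy0'⟩ := Finset.exists_mem_notMem_of_card_lt_card hYc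
  obtain ⟨S, hS, hS'⟩ := hG.left X Y hR.card_eq (hR.good hG.zero) x0 hx0'
  obtain ⟨S2, hS2, hS2'⟩ := hG.right X Y hR.card_eq (hR.good hG.zero) y0 hy0'
  have h1 : Ext G m P Q ⊆ S2 ×ˢ S := by
    intro p hp
    obtain ⟨⟨h3, h4⟩, h5⟩ := mem_Ext.1 hp
    have h3' : p.1 ∉ X := fun h => h3 (hX h)
    have h4' : p.2 ∉ Y := fun h => h4 (hY h)
    rw [Finset.mem_product]
    constructor
    · by_contra h6
      apply h5
      refine ⟨insert p.1 X, Finset.insert_subset_insert _ hX, insert y0 Y,
        Finset.insert_subset (Finset.mem_insert_of_mem hy0)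
          (hY.trans (Finset.subset_insert _ _)), hR.step h3' hy0' (hS2' _ h3' h6), ?_⟩
      rw [Finset.card_insert_of_notMem h3, Finset.card_insert_of_notMem h3']
      omega
    · by_contra h6
      apply h5
      refine ⟨insert x0 X, Finset.insert_subset (Finset.mem_insert_of_mem hx0)
          (hX.trans (Finset.subset_insert _ _)), insert p.2 Y, Finset.insert_subset_insert _ hY,
          hR.step hx0' h4' (hS' _ h4' h6), ?_⟩
      rw [Finset.card_insert_of_notMem h3, Finset.card_insert_of_notMem hx0']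
      omega
  refine (Finset.card_le_card h1).trans ?_
  rw [Finset.card_product]
  exact Nat.mul_le_mul hS2 hS

/-- for most `(x, y)` the number of missing elements becomes smaller -/
theorem card_Ext_down (hG : Few G b) {i m : ℕ} {P Q : Finset (Fin n)} (hP : P.card = i)
    (hQ : Q.card = i) (h : Dfc G (m + 1) P Q) (h' : ¬ Dfc G m P Q) :
    (Ext G m P Q).card + (n - i - b) * (n - i - b) ≤ (n - i) * (n - i) := by
  classical
  obtain ⟨X, hX, Y, hY, hR, hc⟩ := h
  have hXc : X.card + m < P.card := by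
    by_contra h1
    exact h' ⟨X, hX, Y, hY, hR, by omega⟩
  have hYc : Y.card < Q.card := by rw [← hR.card_eq]; omega
  obtain ⟨x0, hx0, hx0'⟩ := Finset.exists_mem_notMem_of_card_lt_card (s := X) (t := P) (by omega)
  obtain ⟨y0, hy0, hy0'⟩ := Finset.exists_mem_notMem_of_card_lt_card hYc
  obtain ⟨S, hS, hS'⟩ := hG.left X Y hR.card_eq (hR.good hG.zero) x0 hx0'
  have h2 : ∀ y, ∃ T : Finset (Fin n), T.card ≤ b ∧ (y ∉ Q → y ∉ S → ∀ x, x ∉ P → x ∉ T →
      Dfc G m (insert x P) (insert y Q)) := by
    intro y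
    by_cases hy : y ∉ Q ∧ y ∉ S
    · have hyY : y ∉ Y := fun h => hy.1 (hY h)
      have hR1 := hR.step hx0' hyY (hS' y hyY hy.2)
      have hy0'' : y0 ∉ insert y Y := by
        rw [Finset.mem_insert]
        rintro (h | h)
        · exact hy.1 (h ▸ hy0)
        · exact hy0' h
      obtain ⟨T, hT, hT'⟩ := hG.right _ _ hR1.card_eq (hR1.good hG.zero) y0 hy0''
      refine ⟨T, hT, fun _ _ x hx hxT => ?_⟩
      have hx' : x ∉ insert x0 X := by
        rw [Finset.mem_insert]
        rintro (h | h)
        · exact hx (h ▸ hx0)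
        · exact hx (hX h)
      refine ⟨insert x (insert x0 X), ?_, insert y0 (insert y Y), ?_,
        hR1.step hx' hy0'' (hT' x hx' hxT), ?_⟩
      · exact Finset.insert_subset_insert _ (Finset.insert_subset hx0 hX)
      · refine Finset.insert_subset (Finset.mem_insert_of_mem hy0) ?_
        exact Finset.insert_subset_insert _ hY
      · rw [Finset.card_insert_of_notMem hx, Finset.card_insert_of_notMem hx',
          Finset.card_insert_of_notMem hx0']
        omega
    · exact ⟨∅, by simp, fun h1 h2 => absurd ⟨h1, h2⟩ hy⟩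
  choose T hT hT' using h2
  -- the good extensions
  have h3 : (n - i - b) * (n - i - b) ≤
      ((Pᶜ ×ˢ Qᶜ).filter fun p => Dfc G m (insert p.1 P) (insert p.2 Q)).card := by
    have h4 : (Qᶜ \ S).biUnion (fun y => (Pᶜ \ T y).image fun x => (x, y)) ⊆
        (Pᶜ ×ˢ Qᶜ).filter fun p => Dfc G m (insert p.1 P) (insert p.2 Q) := by
      intro p hp
      rw [Finset.mem_biUnion] at hp
      obtain ⟨y, hy, hp⟩ := hp
      rw [Finset.mem_image] at hp
      obtain ⟨x, hx, rfl⟩ := hp
      rw [Finset.mem_sdiff, Finset.mem_compl] at hx hy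
      rw [Finset.mem_filter, Finset.mem_product, Finset.mem_compl, Finset.mem_compl]
      exact ⟨⟨hx.1, hy.1⟩, hT' y hy.1 hy.2 x hx.1 hx.2⟩
    refine le_trans ?_ (Finset.card_le_card h4)
    rw [Finset.card_biUnion]
    · have h5 : ∀ y ∈ Qᶜ \ S, n - i - b ≤ ((Pᶜ \ T y).image fun x => (x, y)).card := by
        intro y _
        rw [Finset.card_image_of_injective _ (fun x x' h => (Prod.mk.inj h).1)]
        have h6 := Finset.le_card_sdiff (T y) Pᶜ
        rw [Finset.card_compl, Fintype.card_fin, hP] at h6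
        have := hT y
        omega
      refine le_trans ?_ (Finset.card_nsmul_le_sum _ _ _ h5)
      rw [smul_eq_mul]
      refine Nat.mul_le_mul_right _ ?_
      have h6 := Finset.le_card_sdiff S Qᶜ
      rw [Finset.card_compl, Fintype.card_fin, hQ] at h6
      omega
    · intro y _ y' _ hyy
      rw [Function.onFun, Finset.disjoint_left]
      intro p hp hp'
      rw [Finset.mem_image] at hp hp'
      obtain ⟨x, -, rfl⟩ := hp
      obtain ⟨x', -, h⟩ := hp'
      exact hyy (Prod.mk.inj h).2.symm
  have h7 : (Ext G m P Q).card +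
      ((Pᶜ ×ˢ Qᶜ).filter fun p => Dfc G m (insert p.1 P) (insert p.2 Q)).card =
      (n - i) * (n - i) := by
    rw [Nat.add_comm, Ext, Finset.card_filter_add_card_filter_not, Finset.card_product,
      Finset.card_compl, Finset.card_compl, Fintype.card_fin, hP, hQ]
  omega

end Pool.Agent.Gap14
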