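import Pool.Agent.Gap14.Rmid
import Mathlib.Data.List.Basic

/-!
# From reachable pairs to orderings
-/

set_option autoImplicit false

namespace Pool.Agent.Gap14

variable {n : ℕ} {G : Finset (Fin n) → Finset (Fin n) → Prop}

/-- a reachable pair gives two lists -/
theorem Reach.lists (h0 : G ∅ ∅) {X Y : Finset (Fin n)} (h : Reach G X Y) :
    ∃ l l' : List (Fin n), l.Nodup ∧ l'.Nodup ∧ l.toFinset = X ∧ l'.toFinset = Y ∧
      l.length = l'.length ∧ ∀ k, G (l.take k).toFinset (l'.take k).toFinset := by
  induction h with
  | zero => exact ⟨[], [], List.nodup_nil, List.nodup_nil, rfl, rfl, rfl, fun k => by simpa⟩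
  | @step X Y x y hR hx hy hG ih =>
    obtain ⟨l, l', h1, h2, h3, h4, h5, h6⟩ := ih
    have hxl : x ∉ l := by rw [← List.mem_toFinset, h3]; exact hx
    have hyl : y ∉ l' := by rw [← List.mem_toFinset, h4]; exact hy
    have e1 : (l ++ [x]).toFinset = insert x X := by
      rw [List.toFinset_append, h3]
      ext z
      simp
    have e2 : (l' ++ [y]).toFinset = insert y Y := by
      rw [List.toFinset_append, h4]
      ext z
      simp
    refine ⟨l ++ [x], l' ++ [y], ?_, ?_, e1, e2, ?_, ?_⟩
    · rw [List.nodup_append]
      refine ⟨h1, List.nodup_singleton _, ?_⟩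
      intro a ha b hb
      rw [List.mem_singleton] at hb
      rw [hb]
      exact fun h => hxl (h ▸ ha)
    · rw [List.nodup_append]
      refine ⟨h2, List.nodup_singleton _, ?_⟩
      intro a ha b hb
      rw [List.mem_singleton] at hb
      rw [hb]
      exact fun h => hyl (h ▸ ha)
    · rw [List.length_append, List.length_append, h5, List.length_singleton,
        List.length_singleton]
    · intro k
      rcases Nat.lt_or_ge l.length k with hk | hk
      · rw [List.take_of_length_le (by rw [List.length_append, List.length_singleton]; omega),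
          List.take_of_length_le (by rw [List.length_append, List.length_singleton]; omega),
          e1, e2]
        exact hG
      · rw [List.take_append_of_le_length hk, List.take_append_of_le_length (by omega)]
        exact h6 k

/-- the elements which are not among the first `k` -/
theorem mem_drop_iff_notMem_take {l : List (Fin n)} (hl : l.Nodup) (hu : ∀ a, a ∈ l) (k : ℕ)
    (a : Fin n) : a ∈ l.drop k ↔ a ∉ (l.take k).toFinset := by
  rw [List.mem_toFinset]
  have h1 : l.take k ++ l.drop k = l := List.take_append_drop k l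
  have h2 := hl
  rw [← h1, List.nodup_append] at h2
  constructor
  · intro h h'
    exact h2.2.2 a h' a h rfl
  · intro h
    have h3 := hu a
    rw [← h1, List.mem_append] at h3
    exact h3.resolve_left h

/-- two reachable pairs which are complementary give orderings -/
theorem lists_of_reach (h0 : G ∅ ∅) (hs : ∀ X Y, G X Y → G Xᶜ Yᶜ) {P Q : Finset (Fin n)}
    (h1 : Reach G P Q) (h2 : Reach G Pᶜ Qᶜ) :
    ∃ l l' : List (Fin n), l.Nodup ∧ l'.Nodup ∧ (∀ a, a ∈ l) ∧ (∀ a, a ∈ l') ∧
      ∀ k, G (l.take k).toFinset (l'.take k).toFinset := by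
  obtain ⟨l, l', a1, a2, a3, a4, a5, a6⟩ := h1.lists h0
  obtain ⟨m, m', b1, b2, b3, b4, b5, b6⟩ := h2.lists h0
  have c1 : (l ++ m.reverse).Nodup := by
    rw [List.nodup_append]
    refine ⟨a1, List.nodup_reverse.2 b1, ?_⟩
    intro a ha b hb hab
    rw [List.mem_reverse, ← List.mem_toFinset, b3, Finset.mem_compl, ← a3,
      List.mem_toFinset] at hb
    exact hb (hab ▸ ha)
  have c2 : (l' ++ m'.reverse).Nodup := by
    rw [List.nodup_append]
    refine ⟨a2, List.nodup_reverse.2 b2, ?_⟩
    intro a ha b hb hab
    rw [List.mem_reverse, ← List.mem_toFinset, b4, Finset.mem_compl, ← a4,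
      List.mem_toFinset] at hb
    exact hb (hab ▸ ha)
  have c3 : ∀ a, a ∈ l ++ m.reverse := by
    intro a
    rw [List.mem_append, List.mem_reverse, ← List.mem_toFinset, ← List.mem_toFinset, a3, b3,
      Finset.mem_compl]
    exact Classical.em _
  have c4 : ∀ a, a ∈ l' ++ m'.reverse := by
    intro a
    rw [List.mem_append, List.mem_reverse, ← List.mem_toFinset, ← List.mem_toFinset, a4, b4,
      Finset.mem_compl]
    exact Classical.em _
  refine ⟨l ++ m.reverse, l' ++ m'.reverse, c1, c2, c3, c4, ?_⟩
  intro k
  rcases Nat.lt_or_ge l.length k with hk | hk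
  · have e : ∀ (l m : List (Fin n)), (l ++ m.reverse).Nodup → (∀ a, a ∈ l ++ m.reverse) →
        l.length < k → ((l ++ m.reverse).take k).toFinset =
          ((m.take (m.length - (k - l.length))).toFinset)ᶜ := by
      intro l m h3 h4 h5
      ext a
      rw [Finset.mem_compl, ← not_iff_not, not_not, ← mem_drop_iff_notMem_take h3 h4,
        List.drop_append, List.drop_of_length_le (by omega), List.nil_append, List.drop_reverse,
        List.mem_reverse, List.mem_toFinset]
    rw [e l m c1 c3 hk, e l' m' c2 c4 (by omega), ← a5, ← b5]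
    exact hs _ _ (b6 _)
  · rw [List.take_append_of_le_length hk, List.take_append_of_le_length (by omega)]
    exact a6 k

end Pool.Agent.Gap14
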