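import Pool.Agent.Gap14.Rmat
import Pool.Agent.Gap14.Rlist
import Pool.Agent.Gabow87.Blocks

/-!
# Gabow's ordering when circuits and cocircuits are long
-/

set_option autoImplicit false

namespace Pool.Agent.Gap14

open Pool.Agent.Gabow87

/-- a block in terms of lists -/
theorem block_lists {α : Type*} {r : ℕ} (l l' : List α) (hl : l.length = r) (hl' : l'.length = r)
    (i : Fin (r + r)) (x : α) :
    x ∈ block (fun j : Fin r => l[j.val]'(by omega)) (fun j : Fin r => l'[j.val]'(by omega)) i ↔
      if i.val < r then x ∈ l.drop i.val ∨ x ∈ l'.take i.val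
      else x ∈ l'.drop (i.val - r) ∨ x ∈ l.take (i.val - r) := by
  have e1 : ∀ (l : List α) (hl : l.length = r) (k : ℕ), (∃ j : Fin r, k ≤ j.val ∧
      x = l[j.val]'(by omega)) ↔ x ∈ l.drop k := by
    intro l hl k
    rw [List.mem_drop_iff_getElem]
    constructor
    · rintro ⟨j, hj, rfl⟩
      refine ⟨j.val - k, by omega, ?_⟩
      congr 1
      omega
    · rintro ⟨j, hj, rfl⟩
      exact ⟨⟨k + j, by omega⟩, Nat.le_add_right _ _, rfl⟩
  have e2 : ∀ (l : List α) (hl : l.length = r) (k : ℕ), (∃ j : Fin r, j.val < k ∧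
      x = l[j.val]'(by omega)) ↔ x ∈ l.take k := by
    intro l hl k
    rw [List.mem_take_iff_getElem]
    constructor
    · rintro ⟨j, hj, rfl⟩
      exact ⟨j.val, by omega, rfl⟩
    · rintro ⟨j, hj, rfl⟩
      exact ⟨⟨j, by omega⟩, by change j < k; omega, rfl⟩
  split_ifs with hi
  · rw [mem_block_lt _ _ _ hi, e1 l hl, e2 l' hl']
  · rw [mem_block_ge _ _ _ (by omega), e1 l' hl', e2 l hl]

/-- **Near uniform pairs of bases.** -/
theorem near_uniform {α : Type*} (M : Matroid α) {r c d : ℕ} (b b' : Fin r → α)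
    (hb : Function.Injective b) (hb' : Function.Injective b')
    (hB : M.IsBase (Set.range b)) (hB' : M.IsBase (Set.range b'))
    (hI : ∀ Z, Set.range b ∩ Set.range b' ⊆ Z → Z ⊆ Set.range b ∪ Set.range b' →
      Z.ncard + c ≤ r → M.Indep Z)
    (hS : ∀ Z, Set.range b ∩ Set.range b' ⊆ Z → Z ⊆ Set.range b ∪ Set.range b' →
      r + d ≤ Z.ncard → M.Spanning Z)
    (hcd : 5 * (c + d) ≤ (Set.range b \ Set.range b').ncard) :
    ∃ σ σ' : Equiv.Perm (Fin r), ∀ i : Fin (r + r), M.IsBase (block (b ∘ σ) (b' ∘ σ') i) := by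
  classical
  set B := Set.range b with hBd
  set B' := Set.range b' with hBd'
  have hfB : B.Finite := Set.finite_range b
  have hfB' : B'.Finite := Set.finite_range b'
  have hBr : B.ncard = r := by
    rw [hBd, ← Set.image_univ, Set.ncard_image_of_injective _ hb, Set.ncard_univ, Nat.card_fin]
  have hBr' : B'.ncard = r := by
    rw [hBd', ← Set.image_univ, Set.ncard_image_of_injective _ hb', Set.ncard_univ, Nat.card_fin]
  set I := B ∩ B' with hId
  have hfI : I.Finite := hfB.subset Set.inter_subset_left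
  obtain ⟨n, hn⟩ : ∃ n, n = (B \ B').ncard := ⟨_, rfl⟩
  have hn1 : I.ncard + n = r := by
    rw [hn, hId, Set.ncard_inter_add_ncard_sdiff_eq_ncard B B' hfB, hBr]
  have hn2 : (B' \ B).ncard = n := by
    have h1 := Set.ncard_inter_add_ncard_sdiff_eq_ncard B' B hfB'
    rw [Set.inter_comm, ← hId, hBr'] at h1
    omega
  -- enumerations
  have hen : ∀ S : Set α, S.Finite → S.ncard = n →
      ∃ u : Fin n → α, Function.Injective u ∧ Set.range u = S := by
    intro S hSf hSn
    have h1 : Nat.card S = n := hSn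
    have : Finite S := hSf
    obtain ⟨e⟩ : Nonempty (Fin n ≃ S) := ⟨(Finite.equivFinOfCardEq h1).symm⟩
    refine ⟨fun i => (e i).1, fun i j h => e.injective (Subtype.ext h), ?_⟩
    ext z
    constructor
    · rintro ⟨i, rfl⟩
      exact (e i).2
    · intro hz
      exact ⟨e.symm ⟨z, hz⟩, by simp⟩
  obtain ⟨u, hu, hur⟩ := hen (B \ B') hfB.sdiff hn.symm
  obtain ⟨v, hv, hvr⟩ := hen (B' \ B) hfB'.sdiff hn2
  set f : Fin n ⊕ Fin n → α := Sum.elim u v with hf
  have huB : ∀ i, u i ∈ B \ B' := fun i => hur ▸ Set.mem_range_self i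
  have hvB : ∀ i, v i ∈ B' \ B := fun i => hvr ▸ Set.mem_range_self i
  have hfinj : Function.Injective f := by
    rintro (i | i) (j | j) h
    · exact congrArg _ (hu h)
    · exact absurd (huB i).1 (by
        have h' : u i = v j := h
        rw [h']; exact (hvB j).2)
    · exact absurd (huB j).1 (by
        have h' : v i = u j := h
        rw [← h']; exact (hvB i).2)
    · exact congrArg _ (hv h)
  have hfI' : ∀ i, f i ∉ I := by
    rintro (i | i) h
    · exact (huB i).2 h.2
    · exact (hvB i).2 h.1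
  have hfE : ∀ i, f i ∈ M.E := by
    rintro (i | i)
    · exact hB.subset_ground (huB i).1
    · exact hB'.subset_ground (hvB i).1
  have hbs1 : ∀ Z : Finset (Fin n ⊕ Fin n), (bs I f Z).ncard = I.ncard + Z.card := by
    intro Z
    rw [bs, Set.ncard_union_eq _ hfI (Z.finite_toSet.image f),
      Set.ncard_image_of_injective _ hfinj, Set.ncard_coe_finset]
    rw [Set.disjoint_left]
    rintro z hz ⟨i, -, rfl⟩
    exact hfI' i hz
  have hbs2 : ∀ Z : Finset (Fin n ⊕ Fin n), bs I f Z ⊆ B ∪ B' := by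
    rintro Z z (hz | ⟨i | i, -, rfl⟩)
    · exact Or.inl hz.1
    · exact Or.inl (huB i).1
    · exact Or.inr (hvB i).1
  have hbs0 : bs I f (Finset.disjSum Finset.univ ∅) = B := by
    ext z
    constructor
    · rintro (hz | ⟨i | i, hi, rfl⟩)
      · exact hz.1
      · exact (huB i).1
      · simp at hi
    · intro hz
      by_cases h : z ∈ B'
      · exact Or.inl ⟨hz, h⟩
      · obtain ⟨i, rfl⟩ : z ∈ Set.range u := by rw [hur]; exact ⟨hz, h⟩
        exact Or.inr ⟨Sum.inl i, by simp, rfl⟩
  have hbs0' : bs I f (Finset.disjSum ∅ Finset.univ) = B' := by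
    ext z
    constructor
    · rintro (hz | ⟨i | i, hi, rfl⟩)
      · exact hz.2
      · simp at hi
      · exact (hvB i).1
    · intro hz
      by_cases h : z ∈ B
      · exact Or.inl ⟨h, hz⟩
      · obtain ⟨i, rfl⟩ : z ∈ Set.range v := by rw [hvr]; exact ⟨hz, h⟩
        exact Or.inr ⟨Sum.inr i, by simp, rfl⟩
  have hG0 : GM M I f ∅ ∅ := by
    constructor
    · rw [Finset.compl_empty, hbs0]
      exact hB
    · rw [Finset.compl_empty, hbs0']
      exact hB'
  have hfew : Few (GM M I f) (c + d) := by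
    refine few_GM hfinj hfI' hfE ?_ ?_ hG0
    · intro Z hZ
      exact hI _ Set.subset_union_left (hbs2 Z) (by rw [hbs1]; omega)
    · intro Z hZ
      exact hS _ Set.subset_union_left (hbs2 Z) (by rw [hbs1]; omega)
  obtain ⟨P, Q, hP, hQ⟩ := exists_reach_compl hfew (fun X Y h => h.compl) (by omega)
  obtain ⟨l, l', h1, h2, h3, h4, h5⟩ := lists_of_reach hG0 (fun X Y h => h.compl) hP hQ
  -- the common elements
  obtain ⟨W, hW, hWI⟩ : ∃ W : List α, W.Nodup ∧ ∀ z, z ∈ W ↔ z ∈ I :=
    ⟨hfI.toFinset.toList, Finset.nodup_toList _, fun z => by simp⟩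
  have hlen : ∀ l : List (Fin n), l.Nodup → (∀ a, a ∈ l) → l.length = n := by
    intro l hl hl2
    have h6 : l.toFinset = Finset.univ := by
      ext a; simp [hl2 a]
    rw [← List.toFinset_card_of_nodup hl, h6, Finset.card_univ, Fintype.card_fin]
  have hWlen : W.length = I.ncard := by
    rw [← List.toFinset_card_of_nodup hW, ← Set.ncard_coe_finset]
    congr 1
    ext z
    simp [hWI]
  set A := l.map u ++ W with hA
  set A' := l'.map v ++ W with hA'
  have hAlen : A.length = r := by
    rw [hA, List.length_append, List.length_map, hlen l h1 h3, hWlen]; omega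
  have hAlen' : A'.length = r := by
    rw [hA', List.length_append, List.length_map, hlen l' h2 h4, hWlen]; omega
  have hAnd : A.Nodup := by
    rw [hA, List.nodup_append]
    refine ⟨h1.map hu, hW, ?_⟩
    intro a ha z hz haz
    rw [List.mem_map] at ha
    obtain ⟨i, -, rfl⟩ := ha
    exact hfI' (Sum.inl i) (by rw [hWI] at hz; change u i ∈ I; rw [haz]; exact hz)
  have hAnd' : A'.Nodup := by
    rw [hA', List.nodup_append]
    refine ⟨h2.map hv, hW, ?_⟩
    intro a ha z hz haz
    rw [List.mem_map] at ha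
    obtain ⟨i, -, rfl⟩ := ha
    exact hfI' (Sum.inr i) (by rw [hWI] at hz; change v i ∈ I; rw [haz]; exact hz)
  have hAB : ∀ z ∈ A, z ∈ B := by
    intro z hz
    rw [hA, List.mem_append, List.mem_map, hWI] at hz
    rcases hz with ⟨i, -, rfl⟩ | hz
    · exact (huB i).1
    · exact hz.1
  have hAB' : ∀ z ∈ A', z ∈ B' := by
    intro z hz
    rw [hA', List.mem_append, List.mem_map, hWI] at hz
    rcases hz with ⟨i, -, rfl⟩ | hz
    · exact (hvB i).1
    · exact hz.2
  -- permutations
  have hperm : ∀ (b : Fin r → α) (A : List α) (hAl : A.length = r), A.Nodup →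
      (∀ z ∈ A, z ∈ Set.range b) →
      ∃ σ : Equiv.Perm (Fin r), b ∘ σ = fun j : Fin r => A[j.val]'(by omega) := by
    intro b A hAl hAn hAb
    have h6 : ∀ j : Fin r, ∃ t, b t = A[j.val]'(by omega) :=
      fun j => hAb _ (List.getElem_mem _)
    choose g hg using h6
    have hginj : Function.Injective g := by
      intro i j hij
      have h7 : A[i.val]'(by omega) = A[j.val]'(by omega) := by rw [← hg i, ← hg j, hij]
      exact Fin.ext ((List.Nodup.getElem_inj_iff hAn).1 h7)
    refine ⟨Equiv.ofBijective g (Finite.injective_iff_bijective.1 hginj), ?_⟩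
    funext j
    exact hg j
  obtain ⟨σ, hσ⟩ := hperm b A hAlen hAnd hAB
  obtain ⟨σ', hσ'⟩ := hperm b' A' hAlen' hAnd' hAB'
  refine ⟨σ, σ', fun i => ?_⟩
  rw [hσ, hσ']
  -- the blocks
  have key : ∀ k : ℕ, {x | x ∈ A.drop k ∨ x ∈ A'.take k} =
      bs I f ((l.take k).toFinsetᶜ.disjSum (l'.take k).toFinset) := by
    intro k
    ext x
    rw [Set.mem_ofPred_eq, hA, hA', List.drop_append, List.take_append, List.mem_append,
      List.mem_append, List.length_map, List.length_map, hlen l h1 h3, hlen l' h2 h4,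
      ← List.map_drop, ← List.map_take, List.mem_map, List.mem_map]
    have hWx : x ∈ I ↔ x ∈ W.drop (k - n) ∨ x ∈ W.take (k - n) := by
      rw [← hWI, or_comm, ← List.mem_append, List.take_append_drop]
    constructor
    · rintro ((⟨a, ha, rfl⟩ | hx) | (⟨a, ha, rfl⟩ | hx))
      · refine Or.inr ⟨Sum.inl a, ?_, rfl⟩
        rw [Finset.mem_coe, Finset.inl_mem_disjSum, Finset.mem_compl]
        exact (mem_drop_iff_notMem_take h1 h3 k a).1 ha
      · exact Or.inl (hWx.2 (Or.inl hx))
      · refine Or.inr ⟨Sum.inr a, ?_, rfl⟩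
        rw [Finset.mem_coe, Finset.inr_mem_disjSum, List.mem_toFinset]
        exact ha
      · exact Or.inl (hWx.2 (Or.inr hx))
    · rintro (hx | ⟨a | a, ha, rfl⟩)
      · rcases hWx.1 hx with h | h
        · exact Or.inl (Or.inr h)
        · exact Or.inr (Or.inr h)
      · rw [Finset.mem_coe, Finset.inl_mem_disjSum, Finset.mem_compl] at ha
        exact Or.inl (Or.inl ⟨a, (mem_drop_iff_notMem_take h1 h3 k a).2 ha, rfl⟩)
      · rw [Finset.mem_coe, Finset.inr_mem_disjSum, List.mem_toFinset] at ha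
        exact Or.inr (Or.inl ⟨a, ha, rfl⟩)
  have key' : ∀ k : ℕ, {x | x ∈ A'.drop k ∨ x ∈ A.take k} =
      bs I f ((l.take k).toFinset.disjSum (l'.take k).toFinsetᶜ) := by
    intro k
    ext x
    rw [Set.mem_ofPred_eq, hA, hA', List.drop_append, List.take_append, List.mem_append,
      List.mem_append, List.length_map, List.length_map, hlen l h1 h3, hlen l' h2 h4,
      ← List.map_drop, ← List.map_take, List.mem_map, List.mem_map]
    have hWx : x ∈ I ↔ x ∈ W.drop (k - n) ∨ x ∈ W.take (k - n) := by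
      rw [← hWI, or_comm, ← List.mem_append, List.take_append_drop]
    constructor
    · rintro ((⟨a, ha, rfl⟩ | hx) | (⟨a, ha, rfl⟩ | hx))
      · refine Or.inr ⟨Sum.inr a, ?_, rfl⟩
        rw [Finset.mem_coe, Finset.inr_mem_disjSum, Finset.mem_compl]
        exact (mem_drop_iff_notMem_take h2 h4 k a).1 ha
      · exact Or.inl (hWx.2 (Or.inl hx))
      · refine Or.inr ⟨Sum.inl a, ?_, rfl⟩
        rw [Finset.mem_coe, Finset.inl_mem_disjSum, List.mem_toFinset]
        exact ha
      · exact Or.inl (hWx.2 (Or.inr hx))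
    · rintro (hx | ⟨a | a, ha, rfl⟩)
      · rcases hWx.1 hx with h | h
        · exact Or.inl (Or.inr h)
        · exact Or.inr (Or.inr h)
      · rw [Finset.mem_coe, Finset.inl_mem_disjSum, List.mem_toFinset] at ha
        exact Or.inr (Or.inl ⟨a, ha, rfl⟩)
      · rw [Finset.mem_coe, Finset.inr_mem_disjSum, Finset.mem_compl] at ha
        exact Or.inl (Or.inl ⟨a, (mem_drop_iff_notMem_take h2 h4 k a).2 ha, rfl⟩)
  rcases Nat.lt_or_ge i.val r with hi | hi
  · have e : block (fun j : Fin r => A[j.val]'(by omega)) (fun j : Fin r => A'[j.val]'(by omega))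
        i = {x | x ∈ A.drop i.val ∨ x ∈ A'.take i.val} := by
      ext x
      rw [block_lists A A' hAlen hAlen', if_pos hi]
      rfl
    rw [e, key]
    exact (h5 i.val).1
  · have e : block (fun j : Fin r => A[j.val]'(by omega)) (fun j : Fin r => A'[j.val]'(by omega))
        i = {x | x ∈ A'.drop (i.val - r) ∨ x ∈ A.take (i.val - r)} := by
      ext x
      rw [block_lists A A' hAlen hAlen', if_neg (by omega)]
      rfl
    rw [e, key']
    exact (h5 (i.val - r)).2

end Pool.Agent.Gap14
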