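import Pool.Agent.Gap14.Rmid
import Mathlib.Combinatorics.Matroid.Circuit
import Mathlib.Data.Finset.Sum

/-!
# Matroids in which circuits and cocircuits are long: few bad exchanges
-/

set_option autoImplicit false

namespace Pool.Agent.Gap14

section

variable {α ι : Type*} [Fintype ι] [DecidableEq ι] {M : Matroid α} {I : Set α} {f : ι → α}
  {n c d : ℕ}

/-- the elements with indices in `Z`, and `I` -/
def bs (I : Set α) (f : ι → α) (Z : Finset ι) : Set α := I ∪ f '' (Z : Set ι)

omit [Fintype ι] [DecidableEq ι] in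
theorem bs_mono {Z Z' : Finset ι} (h : Z ⊆ Z') : bs I f Z ⊆ bs I f Z' :=
  Set.union_subset_union_right _ (Set.image_mono (by exact_mod_cast h))

omit [Fintype ι] [DecidableEq ι] in
theorem mem_bs_of_mem {Z : Finset ι} {e : ι} (h : e ∈ Z) : f e ∈ bs I f Z :=
  Or.inr ⟨e, by exact_mod_cast h, rfl⟩

omit [Fintype ι] [DecidableEq ι] in
theorem notMem_bs (hf : Function.Injective f) (hfI : ∀ i, f i ∉ I) {Z : Finset ι} {e : ι}
    (h : e ∉ Z) : f e ∉ bs I f Z := by
  rintro (h1 | ⟨e', he', h1⟩)
  · exact hfI e h1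
  · rw [hf h1] at he'
    exact h (by exact_mod_cast he')

omit [Fintype ι] in
theorem bs_erase (hf : Function.Injective f) (hfI : ∀ i, f i ∉ I) (T : Finset ι) (e : ι) :
    bs I f T \ {f e} = bs I f (T.erase e) := by
  ext z
  simp only [bs, Set.mem_sdiff, Set.mem_union, Set.mem_image, Finset.mem_coe,
    Set.mem_singleton_iff, Finset.mem_erase]
  constructor
  · rintro ⟨h | ⟨g, hg, rfl⟩, h1⟩
    · exact Or.inl h
    · exact Or.inr ⟨g, ⟨fun h => h1 (by rw [h]), hg⟩, rfl⟩
  · rintro (h | ⟨g, ⟨h1, h2⟩, rfl⟩)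
    · exact ⟨Or.inl h, fun h1 => hfI e (h1 ▸ h)⟩
    · exact ⟨Or.inr ⟨g, h2, rfl⟩, fun h => h1 (hf h)⟩

omit [Fintype ι] in
theorem bs_insert (Z : Finset ι) (g : ι) : insert (f g) (bs I f Z) = bs I f (insert g Z) := by
  rw [bs, bs, Finset.coe_insert, Set.image_insert_eq, Set.insert_union_distrib]
  ext z
  simp only [Set.mem_insert_iff, Set.mem_union]
  tauto

/-- removing an element of a basis, there are few elements which cannot be added -/
theorem few_out (hf : Function.Injective f) (hfI : ∀ i, f i ∉ I) (hE : ∀ i, f i ∈ M.E)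
    (hS : ∀ Z : Finset ι, n + d ≤ Z.card → M.Spanning (bs I f Z)) {T : Finset ι}
    (hT : M.IsBase (bs I f T)) (hTc : T.card = n) {e : ι} (he : e ∈ T) :
    ∃ S : Finset ι, S.card ≤ d ∧
      ∀ g, g ∉ T → g ∉ S → M.IsBase (bs I f (insert g (T.erase e))) := by
  classical
  refine ⟨Finset.univ.filter fun g => g ∉ T ∧ f g ∈ M.closure (bs I f (T.erase e)), ?_, ?_⟩
  · by_contra hcon
    set S := Finset.univ.filter fun g => g ∉ T ∧ f g ∈ M.closure (bs I f (T.erase e)) with hSd
    have h1 : (T.erase e ∪ S).card = (n - 1) + S.card := by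
      rw [Finset.card_union_of_disjoint, Finset.card_erase_of_mem he, hTc]
      rw [Finset.disjoint_left]
      intro g hg hgS
      exact (Finset.mem_filter.1 hgS).2.1 (Finset.mem_of_mem_erase hg)
    have hn : 0 < n := by rw [← hTc]; exact Finset.card_pos.2 ⟨e, he⟩
    have h2 := hS (T.erase e ∪ S) (by omega)
    have hsub : bs I f (T.erase e) ⊆ M.E :=
      (bs_mono (Finset.erase_subset _ _)).trans hT.subset_ground
    have h3 : bs I f (T.erase e ∪ S) ⊆ M.closure (bs I f (T.erase e)) := by
      rintro z (hz | ⟨g, hg, rfl⟩)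
      · exact M.subset_closure _ hsub (Or.inl hz)
      · rw [Finset.mem_coe, Finset.mem_union] at hg
        rcases hg with hg | hg
        · exact M.subset_closure _ hsub (mem_bs_of_mem hg)
        · exact (Finset.mem_filter.1 hg).2.2
    have h4 : f e ∈ M.closure (bs I f (T.erase e)) := by
      have h5 := M.closure_subset_closure_of_subset_closure h3
      rw [h2.closure_eq] at h5
      exact h5 (hE e)
    rw [← bs_erase hf hfI] at h4
    exact hT.indep.notMem_closure_sdiff_of_mem (mem_bs_of_mem he) h4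
  · intro g hg hgS
    rw [Finset.mem_filter] at hgS
    have h1 : f g ∉ M.closure (bs I f (T.erase e)) := fun h =>
      hgS ⟨Finset.mem_univ _, hg, h⟩
    have h2 : M.Indep (bs I f (T.erase e)) := hT.indep.subset (bs_mono (Finset.erase_subset _ _))
    have h3 : M.Indep (insert (f g) (bs I f T \ {f e})) := by
      rw [bs_erase hf hfI]
      exact h2.insert_indep_iff.2 (Or.inl ⟨hE g, h1⟩)
    have h4 := hT.exchange_isBase_of_indep (notMem_bs hf hfI hg) h3
    rwa [bs_erase hf hfI, bs_insert] at h4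

/-- adding an element to a basis, there are few elements which cannot be removed -/
theorem few_in (hf : Function.Injective f) (hfI : ∀ i, f i ∉ I) (hE : ∀ i, f i ∈ M.E)
    (hI : ∀ Z : Finset ι, Z.card + c ≤ n → M.Indep (bs I f Z)) {T : Finset ι}
    (hT : M.IsBase (bs I f T)) (hTc : T.card = n) {g : ι} (hg : g ∉ T) :
    ∃ S : Finset ι, S.card ≤ c ∧
      ∀ e, e ∈ T → e ∉ S → M.IsBase (bs I f (insert g (T.erase e))) := by
  classical
  have hgT := notMem_bs hf hfI hg
  have hgc : f g ∈ M.closure (bs I f T) := by rw [hT.closure_eq]; exact hE g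
  refine ⟨T.filter fun e => f e ∉ M.fundCircuit (f g) (bs I f T), ?_, ?_⟩
  · by_contra hcon
    set S := T.filter fun e => f e ∉ M.fundCircuit (f g) (bs I f T) with hSd
    have hST : S ⊆ T := Finset.filter_subset _ _
    have h1 : (insert g (T \ S)).card = n + 1 - S.card := by
      rw [Finset.card_insert_of_notMem (fun h => hg (Finset.mem_sdiff.1 h).1),
        Finset.card_sdiff_of_subset hST, hTc]
      have := Finset.card_le_card hST
      omega
    have h2 := hI (insert g (T \ S)) (by have := Finset.card_le_card hST; omega)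
    refine (hT.fundCircuit_isCircuit (hE g) hgT).not_indep (h2.subset ?_)
    intro z hz
    have h3 := M.fundCircuit_subset_insert (f g) (bs I f T) hz
    rw [Set.mem_insert_iff] at h3
    rcases h3 with rfl | h3
    · exact mem_bs_of_mem (Finset.mem_insert_self _ _)
    · rcases h3 with h3 | ⟨e, he, rfl⟩
      · exact Or.inl h3
      · refine mem_bs_of_mem (Finset.mem_insert_of_mem (Finset.mem_sdiff.2 ⟨he, ?_⟩))
        intro h4
        exact (Finset.mem_filter.1 h4).2 hz
  · intro e he heS
    rw [Finset.mem_filter, not_and, not_not] at heS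
    have h1 := (hT.indep.mem_fundCircuit_iff hgc hgT).1 (heS he)
    have h2 := hT.exchange_isBase_of_indep' (mem_bs_of_mem he) hgT h1
    have hne : f g ≠ f e := fun h => hg (by rw [hf h]; exact he)
    rw [← Set.insert_sdiff_singleton_comm hne, bs_erase hf hfI, bs_insert] at h2
    exact h2

end

section

variable {α : Type*} {M : Matroid α} {I : Set α} {n c d : ℕ} {f : Fin n ⊕ Fin n → α}

/-- good pairs for a matroid -/
def GM (M : Matroid α) (I : Set α) (f : Fin n ⊕ Fin n → α) (X Y : Finset (Fin n)) : Prop :=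
  M.IsBase (bs I f (Xᶜ.disjSum Y)) ∧ M.IsBase (bs I f (X.disjSum Yᶜ))

theorem GM.compl {X Y : Finset (Fin n)} (h : GM M I f X Y) : GM M I f Xᶜ Yᶜ := by
  refine ⟨?_, ?_⟩
  · rw [compl_compl]
    exact h.2
  · rw [compl_compl]
    exact h.1

/-- few bad extensions -/
theorem few_GM (hf : Function.Injective f) (hfI : ∀ i, f i ∉ I) (hE : ∀ i, f i ∈ M.E)
    (hI : ∀ Z : Finset (Fin n ⊕ Fin n), Z.card + c ≤ n → M.Indep (bs I f Z))
    (hS : ∀ Z : Finset (Fin n ⊕ Fin n), n + d ≤ Z.card → M.Spanning (bs I f Z))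
    (h0 : GM M I f ∅ ∅) : Few (GM M I f) (c + d) := by
  have hcard : ∀ S : Finset (Fin n ⊕ Fin n), S.toLeft.card ≤ S.card := fun S => by
    have := S.card_toLeft_add_card_toRight; omega
  have hcard' : ∀ S : Finset (Fin n ⊕ Fin n), S.toRight.card ≤ S.card := fun S => by
    have := S.card_toLeft_add_card_toRight; omega
  have hT1 : ∀ X Y : Finset (Fin n), X.card = Y.card → (Xᶜ.disjSum Y).card = n := by
    intro X Y h
    rw [Finset.card_disjSum, Finset.card_compl, Fintype.card_fin, h]
    have := Finset.card_le_univ Y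
    rw [Fintype.card_fin] at this
    omega
  have hT2 : ∀ X Y : Finset (Fin n), X.card = Y.card → (X.disjSum Yᶜ).card = n := by
    intro X Y h
    rw [Finset.card_disjSum, Finset.card_compl, Fintype.card_fin, h]
    have := Finset.card_le_univ Y
    rw [Fintype.card_fin] at this
    omega
  have e1 : ∀ (X Y : Finset (Fin n)) (x y : Fin n), (insert x X)ᶜ.disjSum (insert y Y) =
      insert (Sum.inr y) ((Xᶜ.disjSum Y).erase (Sum.inl x)) := by
    intro X Y x y
    ext (z | z) <;> simp
  have e2 : ∀ (X Y : Finset (Fin n)) (x y : Fin n), (insert x X).disjSum (insert y Y)ᶜ =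
      insert (Sum.inl x) ((X.disjSum Yᶜ).erase (Sum.inr y)) := by
    intro X Y x y
    ext (z | z) <;> simp
  refine ⟨h0, ?_, ?_⟩
  · intro X Y hc hG x hx
    obtain ⟨S1, hS1, h1⟩ := few_out hf hfI hE hS hG.1 (hT1 X Y hc) (e := Sum.inl x)
      (by simpa using hx)
    obtain ⟨S2, hS2, h2⟩ := few_in hf hfI hE hI hG.2 (hT2 X Y hc) (g := Sum.inl x)
      (by simpa using hx)
    refine ⟨S1.toRight ∪ S2.toRight, ?_, ?_⟩
    · refine (Finset.card_union_le _ _).trans ?_
      have := hcard' S1
      have := hcard' S2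
      omega
    · intro y hy hyS
      rw [Finset.mem_union, not_or, Finset.mem_toRight, Finset.mem_toRight] at hyS
      refine ⟨?_, ?_⟩
      · rw [e1]
        exact h1 _ (by simpa using hy) hyS.1
      · rw [e2]
        exact h2 _ (by simpa using hy) hyS.2
  · intro X Y hc hG y hy
    obtain ⟨S1, hS1, h1⟩ := few_in hf hfI hE hI hG.1 (hT1 X Y hc) (g := Sum.inr y)
      (by simpa using hy)
    obtain ⟨S2, hS2, h2⟩ := few_out hf hfI hE hS hG.2 (hT2 X Y hc) (e := Sum.inr y)
      (by simpa using hy)
    refine ⟨S1.toLeft ∪ S2.toLeft, ?_, ?_⟩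
    · refine (Finset.card_union_le _ _).trans ?_
      have := hcard S1
      have := hcard S2
      omega
    · intro x hx hxS
      rw [Finset.mem_union, not_or, Finset.mem_toLeft, Finset.mem_toLeft] at hxS
      refine ⟨?_, ?_⟩
      · rw [e1]
        exact h1 _ (by simpa using hx) hxS.1
      · rw [e2]
        exact h2 _ (by simpa using hx) hxS.2

end

end Pool.Agent.Gap14
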