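import Pool.Agent.Gap14.Rcc

/-!
# A pair of the middle level which is reachable from below and from above
-/

set_option autoImplicit false

namespace Pool.Agent.Gap14

variable {n : ℕ} {G : Finset (Fin n) → Finset (Fin n) → Prop} {b : ℕ}

/-- the complements of the pairs of level `i` -/
theorem card_compl_Bd (m i : ℕ) :
    (open Classical in (Lev n i).filter fun P => ¬ Dfc G m P.1ᶜ P.2ᶜ).card ≤
      (Bd G m (n - i)).card := by
  classical
  refine Finset.card_le_card_of_injOn (fun P => (P.1ᶜ, P.2ᶜ)) ?_ ?_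
  · intro P hP
    rw [Finset.mem_coe, Finset.mem_filter, mem_Lev] at hP
    obtain ⟨⟨h1, h2⟩, h3⟩ := hP
    rw [Finset.mem_coe, mem_Bd]
    refine ⟨⟨?_, ?_⟩, h3⟩
    · rw [Finset.card_compl, Fintype.card_fin, h1]
    · rw [Finset.card_compl, Fintype.card_fin, h2]
  · intro P _ Q _ h
    rw [Prod.mk.injEq, compl_inj_iff, compl_inj_iff] at h
    exact Prod.ext h.1 h.2

/-- **Main theorem on reachable pairs.** If every good pair has at most `b ≤ n / 5` bad extensions
with a given first or second element, then some pair is reachable together with the pair of the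
complements. -/
theorem exists_reach_compl (hG : Few G b) (hs : ∀ X Y, G X Y → G Xᶜ Yᶜ) (hb : 5 * b ≤ n) :
    ∃ P Q : Finset (Fin n), Reach G P Q ∧ Reach G Pᶜ Qᶜ := by
  classical
  obtain ⟨k, hk⟩ : ∃ k, k = n / 2 := ⟨_, rfl⟩
  have h1 := card_Bd_le hG k (by omega) (by omega) 0
  have h2 := card_Bd_le hG (n - k) (by omega) (by omega) 1
  have h3 := card_compl_Bd (n := n) (G := G) 1 k
  rw [Nat.choose_symm (by omega)] at h2
  rw [pow_zero, pow_zero, mul_one, mul_one] at h1
  rw [pow_one, pow_one] at h2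
  have hC : 0 < n.choose k * n.choose k := by
    have := Nat.choose_pos (n := n) (k := k) (by omega)
    positivity
  obtain ⟨P, Q, hP, hR, hD⟩ : ∃ P Q : Finset (Fin n), P.card = Q.card ∧ Reach G P Q ∧
      Dfc G 1 Pᶜ Qᶜ := by
    by_contra hcon
    push Not at hcon
    have h4 : Lev n k ⊆ Bd G 0 k ∪ (Lev n k).filter fun P => ¬ Dfc G 1 P.1ᶜ P.2ᶜ := by
      intro P hP
      rw [Finset.mem_union]
      have hP' := mem_Lev.1 hP
      by_cases h5 : Dfc G 0 P.1 P.2
      · right
        rw [Finset.mem_filter]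
        exact ⟨hP, hcon _ _ (by omega) (h5.reach (by omega))⟩
      · left
        exact mem_Bd.2 ⟨hP', h5⟩
    have h5 := (Finset.card_le_card h4).trans (Finset.card_union_le _ _)
    rw [card_Lev] at h5
    omega
  -- the last step
  obtain ⟨X, hX, Y, hY, hXY, hc⟩ := hD
  have hXc : G Xᶜ Yᶜ := hs _ _ (hXY.good hG.zero)
  have hcard := hXY.card_eq
  rw [Finset.card_compl, Fintype.card_fin] at hc
  have hPn := Finset.card_le_univ P
  rw [Fintype.card_fin] at hPn
  have hX1 : P ⊆ Xᶜ := by
    rw [← Finset.compl_subset_compl, compl_compl]; exact hX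
  have hY1 : Q ⊆ Yᶜ := by
    rw [← Finset.compl_subset_compl, compl_compl]; exact hY
  have hXn : X.card ≤ n := by
    have := Finset.card_le_univ X
    rwa [Fintype.card_fin] at this
  have hX2 : Xᶜ.card = n - X.card := by rw [Finset.card_compl, Fintype.card_fin]
  have hY2 : Yᶜ.card = n - X.card := by rw [Finset.card_compl, Fintype.card_fin, ← hcard]
  have hPX := Finset.card_le_card hX1
  refine ⟨Xᶜ, Yᶜ, ?_, by rwa [compl_compl, compl_compl]⟩
  rcases Nat.eq_or_lt_of_le hPX with h6 | h6
  · have e1 : P = Xᶜ := Finset.eq_of_subset_of_card_le hX1 h6.ge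
    have e2 : Q = Yᶜ := Finset.eq_of_subset_of_card_le hY1 (by omega)
    rw [← e1, ← e2]
    exact hR
  · obtain ⟨x, hx, hxe⟩ : ∃ x, x ∉ P ∧ insert x P = Xᶜ := by
      have h7 : (Xᶜ \ P).card = 1 := by
        rw [Finset.card_sdiff_of_subset hX1]; omega
      obtain ⟨x, hx⟩ := Finset.card_eq_one.1 h7
      have h8 : x ∈ Xᶜ \ P := by rw [hx]; exact Finset.mem_singleton_self x
      rw [Finset.mem_sdiff] at h8
      refine ⟨x, h8.2, ?_⟩
      refine Finset.eq_of_subset_of_card_le (Finset.insert_subset h8.1 hX1) ?_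
      rw [Finset.card_insert_of_notMem h8.2]; omega
    obtain ⟨y, hy, hye⟩ : ∃ y, y ∉ Q ∧ insert y Q = Yᶜ := by
      have h7 : (Yᶜ \ Q).card = 1 := by
        rw [Finset.card_sdiff_of_subset hY1]; omega
      obtain ⟨y, hy⟩ := Finset.card_eq_one.1 h7
      have h8 : y ∈ Yᶜ \ Q := by rw [hy]; exact Finset.mem_singleton_self y
      rw [Finset.mem_sdiff] at h8
      refine ⟨y, h8.2, ?_⟩
      refine Finset.eq_of_subset_of_card_le (Finset.insert_subset h8.1 hY1) ?_
      rw [Finset.card_insert_of_notMem h8.2]; omega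
    rw [← hxe, ← hye] at hXc ⊢
    exact hR.step hx hy hXc

end Pool.Agent.Gap14
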