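import Pool.Agent.Gap14.Walk

/-!
# Short closed walks in a digraph without large acyclic sets

A digraph on at most `2 ^ L` vertices without closed walks of length at most `2 q L` has an acyclic
set of vertices which misses at most the fraction `L / q` of the vertices (region growing).
-/

set_option autoImplicit false

namespace Pool.Agent.Gap14

variable {V : Type*}

/-- walk of length `k` from `a` to `b` in `S` -/
def Wk (D : V → V → Prop) (S : Finset V) (a b : V) (k : ℕ) : Prop :=
  ∃ w : ℕ → V, (∀ i ≤ k, w i ∈ S) ∧ w 0 = a ∧ w k = b ∧ ∀ i < k, D (w i) (w (i + 1))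

theorem Wk.refl {D : V → V → Prop} {S : Finset V} {a : V} (ha : a ∈ S) : Wk D S a a 0 :=
  ⟨fun _ => a, fun _ _ => ha, rfl, rfl, fun i hi => absurd hi (by omega)⟩

theorem Wk.trans {D : V → V → Prop} {S : Finset V} {a b c : V} {k l : ℕ} (h1 : Wk D S a b k)
    (h2 : Wk D S b c l) : Wk D S a c (k + l) := by
  obtain ⟨w, a1, a2, a3, a4⟩ := h1
  obtain ⟨u, b1, b2, b3, b4⟩ := h2
  refine ⟨fun i => if i ≤ k then w i else u (i - k), ?_, ?_, ?_, ?_⟩
  · intro i hi
    dsimp only
    split_ifs with h
    · exact a1 i h
    · exact b1 _ (by omega)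
  · dsimp only
    rw [if_pos (by omega)]
    exact a2
  · dsimp only
    split_ifs with h
    · have hl : l = 0 := by omega
      subst hl
      rw [Nat.add_zero, a3, ← b2, b3]
    · rw [show k + l - k = l by omega]
      exact b3
  · intro i hi
    dsimp only
    rcases Nat.lt_trichotomy i k with h | h | h
    · rw [if_pos (by omega), if_pos (by omega)]
      exact a4 i h
    · subst h
      rw [if_pos le_rfl, if_neg (by omega), show i + 1 - i = 0 + 1 by omega, a3, ← b2]
      exact b4 0 (by omega)
    · rw [if_neg (by omega), if_neg (by omega), show i + 1 - k = i - k + 1 by omega]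
      exact b4 _ (by omega)

theorem Wk.rev {D : V → V → Prop} {S : Finset V} {a b : V} {k : ℕ}
    (h1 : Wk (fun x y => D y x) S a b k) : Wk D S b a k := by
  obtain ⟨w, a1, a2, a3, a4⟩ := h1
  refine ⟨fun i => w (k - i), fun i _ => a1 _ (by omega), ?_, ?_, ?_⟩
  · dsimp only
    rw [Nat.sub_zero]
    exact a3
  · dsimp only
    rw [Nat.sub_self]
    exact a2
  · intro i hi
    dsimp only
    have h := a4 (k - (i + 1)) (by omega)
    rw [show k - (i + 1) + 1 = k - i by omega] at h
    exact h

theorem Wk.closed {D : V → V → Prop} {S : Finset V} {a : V} {k : ℕ} (h : Wk D S a a k)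
    (hk : 0 < k) : ∃ w, CW D S k w := by
  obtain ⟨w, a1, a2, a3, a4⟩ := h
  exact ⟨w, hk, fun i hi => a1 i hi.le, by rw [a2, a3], a4⟩

open Classical in
/-- the vertices of `S` which can be reached from `v` by a walk of length at most `j` in `S` -/
noncomputable def ball (D : V → V → Prop) (S : Finset V) (v : V) : ℕ → Finset V
  | 0 => {v}
  | j + 1 => ball D S v j ∪ S.filter (fun u => ∃ t ∈ ball D S v j, D t u)

theorem ball_subset {D : V → V → Prop} {S : Finset V} {v : V} (hv : v ∈ S) (j : ℕ) :
    ball D S v j ⊆ S := by
  classical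
  induction j with
  | zero =>
    intro x hx
    rw [ball, Finset.mem_singleton] at hx
    rw [hx]
    exact hv
  | succ j ih =>
    intro x hx
    rw [ball, Finset.mem_union, Finset.mem_filter] at hx
    rcases hx with hx | hx
    · exact ih hx
    · exact hx.1

theorem ball_mono {D : V → V → Prop} {S : Finset V} {v : V} {j k : ℕ} (h : j ≤ k) :
    ball D S v j ⊆ ball D S v k := by
  classical
  induction k with
  | zero =>
    have : j = 0 := by omega
    rw [this]
  | succ k ih =>
    rcases Nat.eq_or_lt_of_le h with h1 | h1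
    · rw [h1]
    · refine (ih (by omega)).trans ?_
      rw [ball]
      exact Finset.subset_union_left

theorem mem_ball_self (D : V → V → Prop) (S : Finset V) (v : V) (j : ℕ) : v ∈ ball D S v j :=
  ball_mono (Nat.zero_le j) (by rw [ball]; exact Finset.mem_singleton_self v)

theorem ball_walk {D : V → V → Prop} {S : Finset V} {v : V} (hv : v ∈ S) (j : ℕ) {u : V}
    (hu : u ∈ ball D S v j) : ∃ k ≤ j, Wk D S v u k := by
  classical
  induction j generalizing u with
  | zero =>
    rw [ball, Finset.mem_singleton] at hu
    rw [hu]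
    exact ⟨0, le_rfl, Wk.refl hv⟩
  | succ j ih =>
    rw [ball, Finset.mem_union, Finset.mem_filter] at hu
    rcases hu with hu | ⟨hu, t, ht, htu⟩
    · obtain ⟨k, hk, hw⟩ := ih hu
      exact ⟨k, by omega, hw⟩
    · obtain ⟨k, hk, hw⟩ := ih ht
      refine ⟨k + 1, by omega, hw.trans ⟨fun i => if i = 0 then t else u, ?_, rfl, rfl, ?_⟩⟩
      · intro i _
        dsimp only
        split_ifs
        · exact ball_subset hv j ht
        · exact hu
      · intro i hi
        have : i = 0 := by omega
        subst this
        exact htu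

/-- the balls have few new points at some radius -/
theorem layer {q L : ℕ} (hq : 1 ≤ q) (hL : 1 ≤ L) (s : ℕ → ℕ) (h0 : 1 ≤ s 0)
    (h1 : s (q * L) ≤ 2 ^ L) : ∃ j < q * L, q * s (j + 1) ≤ (q + 1) * s j := by
  by_contra hne
  push Not at hne
  have key : ∀ j ≤ q * L, (q + 1) ^ j ≤ q ^ j * s j ∧ (0 < j → (q + 1) ^ j < q ^ j * s j) := by
    intro j
    induction j with
    | zero =>
      intro _
      refine ⟨by simpa using h0, fun h => absurd h (by omega)⟩
    | succ j ih =>
      intro hj
      have h2 := (ih (by omega)).1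
      have h3 := hne j (by omega)
      have h4 : (q + 1) ^ (j + 1) < q ^ (j + 1) * s (j + 1) := by
        calc (q + 1) ^ (j + 1) = (q + 1) * (q + 1) ^ j := by ring
          _ ≤ (q + 1) * (q ^ j * s j) := Nat.mul_le_mul_left _ h2
          _ = q ^ j * ((q + 1) * s j) := by ring
          _ < q ^ j * (q * s (j + 1)) :=
            Nat.mul_lt_mul_of_pos_left h3 (pow_pos (by omega) _)
          _ = q ^ (j + 1) * s (j + 1) := by ring
      exact ⟨h4.le, fun _ => h4⟩
  have hqL : 0 < q * L := Nat.mul_pos (by omega) (by omega)
  have h2 := (key (q * L) le_rfl).2 hqL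
  -- Bernoulli
  have hB : 2 * q ^ q ≤ (q + 1) ^ q := by
    have h3 : (1 : ℝ) + (q : ℝ) * (1 / q) ≤ (1 + 1 / (q : ℝ)) ^ q :=
      one_add_mul_le_pow (by
        have : (0 : ℝ) ≤ 1 / (q : ℝ) := by positivity
        linarith) q
    have hq0 : (0 : ℝ) < q := by exact_mod_cast (by omega : 0 < q)
    have h4 : (2 : ℝ) ≤ (1 + 1 / (q : ℝ)) ^ q := by
      have : (q : ℝ) * (1 / q) = 1 := by field_simp
      linarith
    have h5 : (2 : ℝ) * (q : ℝ) ^ q ≤ ((q : ℝ) + 1) ^ q := by
      have h6 : ((q : ℝ) + 1) ^ q = (1 + 1 / (q : ℝ)) ^ q * (q : ℝ) ^ q := by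
        rw [← mul_pow]
        congr 1
        field_simp
      rw [h6]
      exact mul_le_mul_of_nonneg_right h4 (by positivity)
    exact_mod_cast h5
  have h3 : 2 ^ L * q ^ (q * L) ≤ (q + 1) ^ (q * L) := by
    rw [pow_mul, pow_mul, ← mul_pow]
    exact Nat.pow_le_pow_left hB L
  have h4 : q ^ (q * L) * s (q * L) ≤ q ^ (q * L) * 2 ^ L := Nat.mul_le_mul_left _ h1
  have h5 : q ^ (q * L) * 2 ^ L = 2 ^ L * q ^ (q * L) := by ring
  omega

open Classical in
/-- a small ball with a thin boundary -/
theorem peel {D : V → V → Prop} {S : Finset V} {v : V} (hv : v ∈ S) {q L : ℕ} (hq : 1 ≤ q)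
    (hL : 1 ≤ L) (hS : S.card ≤ 2 ^ L) (h2 : 2 * (ball D S v (q * L)).card ≤ S.card + 1) :
    ∃ X Y : Finset V, X ⊆ S ∧ Y ⊆ S ∧ Disjoint X Y ∧ v ∈ X ∧ q * Y.card ≤ X.card ∧
      2 * X.card ≤ S.card + 1 ∧ ∀ a ∈ X, ∀ b ∈ S, b ∉ X → b ∉ Y → ¬ D a b := by
  obtain ⟨j, hj, hc⟩ := layer (q := q) (L := L) hq hL (fun j => (ball D S v j).card)
    (by
      have : ball D S v 0 = {v} := rfl
      rw [this, Finset.card_singleton])
    ((Finset.card_le_card (ball_subset hv _)).trans hS)
  refine ⟨ball D S v j, ball D S v (j + 1) \ ball D S v j, ball_subset hv j,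
    Finset.sdiff_subset.trans (ball_subset hv _), Finset.disjoint_sdiff, mem_ball_self D S v j,
    ?_, ?_, ?_⟩
  · have h3 := Finset.card_sdiff_add_card_eq_card
      (ball_mono (D := D) (S := S) (v := v) (Nat.le_succ j))
    have h4 : (ball D S v (j + 1)).card =
        (ball D S v (j + 1) \ ball D S v j).card + (ball D S v j).card := by
      rw [← h3]
    rw [h4] at hc
    nlinarith
  · have := Finset.card_le_card (ball_mono (D := D) (S := S) (v := v) (show j ≤ q * L by omega))
    omega
  · intro a ha b hb hbX hbY hD
    apply hbY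
    rw [Finset.mem_sdiff]
    refine ⟨?_, hbX⟩
    rw [ball, Finset.mem_union, Finset.mem_filter]
    exact Or.inr ⟨hb, a, ha, hD⟩

/-- an acyclic set which contains most vertices -/
theorem exists_acyc [DecidableEq V] (D : V → V → Prop) {q H : ℕ} (hq : 1 ≤ q) (hH : 1 ≤ H)
    (L : ℕ) : 2 * q * L ≤ H → ∀ S : Finset V, S.card ≤ 2 ^ L →
      (∀ m ≤ H, ∀ w : ℕ → V, ¬ CW D S m w) →
      ∃ A ⊆ S, Acyc D A ∧ q * (S.card - A.card) ≤ S.card * L := by
  induction L with
  | zero =>
    intro _ S hS hno
    refine ⟨S, subset_rfl, ?_, by simp⟩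
    intro A' hA' hne
    obtain ⟨c, hc⟩ := hne
    refine ⟨c, hc, ?_⟩
    intro i hi hD
    have h1 : S.card ≤ 1 := by simpa using hS
    have h2 : i = c := Finset.card_le_one.1 h1 i (hA' hi) c (hA' hc)
    rw [h2] at hD
    exact hno 1 hH (fun _ => c) ⟨one_pos, fun _ _ => hA' hc, rfl, fun _ _ => hD⟩
  | succ L ihL =>
    intro hHL S
    induction S using Finset.strongInduction with
    | H S ihS =>
      intro hS hno
      rcases S.eq_empty_or_nonempty with he | ⟨v, hv⟩
      · refine ⟨∅, Finset.empty_subset _, ?_, by rw [he]; simp⟩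
        intro A' hA' hne
        rw [Finset.subset_empty.1 hA'] at hne
        exact absurd hne Finset.not_nonempty_empty
      · have hmono : ∀ S' ⊆ S, ∀ m ≤ H, ∀ w : ℕ → V, ¬ CW D S' m w := by
          intro S' hS' m hm w hw
          exact hno m hm w ⟨hw.1, fun i hi => hS' (hw.2.1 i hi), hw.2.2⟩
        -- two balls
        have hint : ball D S v (q * (L + 1)) ∩ ball (fun x y => D y x) S v (q * (L + 1)) ⊆ {v} := by
          intro u hu
          rw [Finset.mem_inter] at hu
          rw [Finset.mem_singleton]
          by_contra hne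
          obtain ⟨k, hk, hw1⟩ := ball_walk hv _ hu.1
          obtain ⟨l, hl, hw2⟩ := ball_walk hv _ hu.2
          have hw3 := hw1.trans hw2.rev
          have hk0 : 0 < k := by
            rcases Nat.eq_zero_or_pos k with h | h
            · subst h
              obtain ⟨w, _, h5, h6, _⟩ := hw1
              exact absurd (h6.symm.trans h5) hne
            · exact h
          obtain ⟨w, hw⟩ := hw3.closed (by omega)
          refine hno (k + l) ?_ w hw
          have : 2 * q * (L + 1) = q * (L + 1) + q * (L + 1) := by ring
          omega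
        have hcard : (ball D S v (q * (L + 1))).card +
            (ball (fun x y => D y x) S v (q * (L + 1))).card ≤ S.card + 1 := by
          rw [← Finset.card_union_add_card_inter]
          refine Nat.add_le_add (Finset.card_le_card ?_) ?_
          · exact Finset.union_subset (ball_subset hv _) (ball_subset hv _)
          · simpa using Finset.card_le_card hint
        have hsmall : ∀ X : Finset V, 2 * X.card ≤ S.card + 1 → X.card ≤ 2 ^ L := by
          intro X hX
          have : 2 ^ (L + 1) = 2 * 2 ^ L := by ring
          omega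
        have hfin : ∀ X Y : Finset V, X ⊆ S → Y ⊆ S → Disjoint X Y → v ∈ X →
            q * Y.card ≤ X.card → 2 * X.card ≤ S.card + 1 →
            ((∀ a ∈ X, ∀ b ∈ S, b ∉ X → b ∉ Y → ¬ D a b) ∨
              (∀ a ∈ X, ∀ b ∈ S, b ∉ X → b ∉ Y → ¬ D b a)) →
            ∃ A ⊆ S, Acyc D A ∧ q * (S.card - A.card) ≤ S.card * (L + 1) := by
          intro X Y hX hY hXY hvX hq1 hX2 hD
          obtain ⟨A1, hA1, hc1, hs1⟩ := ihL (by
            have : 2 * q * (L + 1) = 2 * q * L + 2 * q := by ring
            omega) X (hsmall X hX2) (hmono X hX)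
          have hR : S \ (X ∪ Y) ⊂ S := by
            refine Finset.ssubset_iff_subset_ne.2 ⟨Finset.sdiff_subset, ?_⟩
            intro h
            have : v ∈ S \ (X ∪ Y) := by
              rw [h]
              exact hv
            rw [Finset.mem_sdiff, Finset.mem_union] at this
            exact this.2 (Or.inl hvX)
          obtain ⟨A2, hA2, hc2, hs2⟩ := ihS (S \ (X ∪ Y)) hR
            ((Finset.card_le_card Finset.sdiff_subset).trans hS) (hmono _ Finset.sdiff_subset)
          have hA2' : ∀ b ∈ A2, b ∈ S ∧ b ∉ X ∧ b ∉ Y := by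
            intro b hb
            have := hA2 hb
            rw [Finset.mem_sdiff, Finset.mem_union] at this
            exact ⟨this.1, fun h => this.2 (Or.inl h), fun h => this.2 (Or.inr h)⟩
          refine ⟨A1 ∪ A2, Finset.union_subset (hA1.trans hX) (hA2.trans Finset.sdiff_subset),
            ?_, ?_⟩
          · intro A' hA' hne
            rcases hD with hD | hD
            · rcases (A' ∩ A2).eq_empty_or_nonempty with h | h
              · have hsub : A' ⊆ A1 := by
                  intro x hx
                  rcases Finset.mem_union.1 (hA' hx) with h1 | h1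
                  · exact h1
                  · have : x ∈ A' ∩ A2 := Finset.mem_inter.2 ⟨hx, h1⟩
                    rw [h] at this
                    exact absurd this (Finset.notMem_empty x)
                exact hc1 A' hsub hne
              · obtain ⟨c, hc, hc'⟩ := hc2 (A' ∩ A2) Finset.inter_subset_right h
                rw [Finset.mem_inter] at hc
                refine ⟨c, hc.1, ?_⟩
                intro i hi hDi
                rcases Finset.mem_union.1 (hA' hi) with h1 | h1
                · obtain ⟨h3, h4, h5⟩ := hA2' c hc.2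
                  exact hD i (hA1 h1) c h3 h4 h5 hDi
                · exact hc' i (Finset.mem_inter.2 ⟨hi, h1⟩) hDi
            · rcases (A' ∩ A1).eq_empty_or_nonempty with h | h
              · have hsub : A' ⊆ A2 := by
                  intro x hx
                  rcases Finset.mem_union.1 (hA' hx) with h1 | h1
                  · have : x ∈ A' ∩ A1 := Finset.mem_inter.2 ⟨hx, h1⟩
                    rw [h] at this
                    exact absurd this (Finset.notMem_empty x)
                  · exact h1
                exact hc2 A' hsub hne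
              · obtain ⟨c, hc, hc'⟩ := hc1 (A' ∩ A1) Finset.inter_subset_right h
                rw [Finset.mem_inter] at hc
                refine ⟨c, hc.1, ?_⟩
                intro i hi hDi
                rcases Finset.mem_union.1 (hA' hi) with h1 | h1
                · exact hc' i (Finset.mem_inter.2 ⟨hi, h1⟩) hDi
                · obtain ⟨h3, h4, h5⟩ := hA2' i h1
                  exact hD c (hA1 hc.2) i h3 h4 h5 hDi
          · have hdis : Disjoint A1 A2 := by
              rw [Finset.disjoint_left]
              intro x hx1 hx2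
              exact (hA2' x hx2).2.1 (hA1 hx1)
            rw [Finset.card_union_of_disjoint hdis]
            have e1 : S.card = X.card + Y.card + (S \ (X ∪ Y)).card := by
              rw [← Finset.card_union_of_disjoint hXY, add_comm,
                Finset.card_sdiff_add_card_eq_card (Finset.union_subset hX hY)]
            have e2 := Finset.card_le_card hA1
            have e3 := Finset.card_le_card hA2
            obtain ⟨x, hx⟩ := Nat.exists_eq_add_of_le e2
            obtain ⟨y, hy⟩ := Nat.exists_eq_add_of_le e3
            have e4 : S.card - (A1.card + A2.card) = x + y + Y.card := by omega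
            have e5 : X.card - A1.card = x := by omega
            have e6 : (S \ (X ∪ Y)).card - A2.card = y := by omega
            rw [e5] at hs1
            rw [e6] at hs2
            rw [e4, e1]
            nlinarith
        rcases Nat.lt_or_ge (S.card + 1) (2 * (ball D S v (q * (L + 1))).card) with h | h
        · obtain ⟨X, Y, h1, h2, h3, h4, h5, h6, h7⟩ := peel (D := fun x y => D y x) (L := L + 1)
            hv hq (Nat.succ_pos L) hS (by omega)
          exact hfin X Y h1 h2 h3 h4 h5 h6 (Or.inr h7)
        · obtain ⟨X, Y, h1, h2, h3, h4, h5, h6, h7⟩ := peel (D := D) (L := L + 1) hv hq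
            (Nat.succ_pos L) hS h
          exact hfin X Y h1 h2 h3 h4 h5 h6 (Or.inl h7)

/-- if every acyclic set misses many vertices then there is a short closed walk -/
theorem short_cycle [DecidableEq V] (D : V → V → Prop) (S : Finset V) (L q : ℕ) (hL : 1 ≤ L)
    (hq : 1 ≤ q) (hS : S.card ≤ 2 ^ L) (_hne : S.Nonempty)
    (h : ∀ A ⊆ S, Acyc D A → S.card * L < q * (S.card - A.card)) :
    ∃ m ≤ 2 * q * L, ∃ w : ℕ → V, CW D S m w := by
  by_contra hno
  push Not at hno
  obtain ⟨A, hA, hc, hs⟩ := exists_acyc D hq (H := 2 * q * L)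
    (Nat.mul_pos (by omega) (by omega)) L le_rfl S hS (fun m hm w => hno m hm w)
  exact absurd (h A hA hc) (by omega)

end Pool.Agent.Gap14
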