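import Pool.Agent.Gap14.Exch
import Pool.Agent.Gap14.Cyc
import Pool.Agent.Gap14.Short
import Pool.Agent.Gap14.Move
import Pool.Agent.Near48.Greedy

/-!
# From one level to the next

`step`: if both opposite blocks number `m0` are bases and more than half of the exchanges up to
`m1` are left, then the terms between can be reordered such that both opposite blocks number
`m0 + a` are bases, with a bound for `a`.
-/

set_option autoImplicit false

namespace Pool.Agent.Gap14

open Pool.Agent.Near48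

variable {r : ℕ}

/-- both opposite blocks number `m` are bases -/
def KB (N : Matroid (Fin r ⊕ Fin r)) (σ σ' : Equiv.Perm (Fin r)) (m : ℕ) : Prop :=
  N.IsBase (Tt σ σ' m : Set (Fin r ⊕ Fin r)) ∧ N.IsBase (Ss σ σ' m : Set (Fin r ⊕ Fin r))

theorem KB.congr {N : Matroid (Fin r ⊕ Fin r)} {σ σ' τ τ' : Equiv.Perm (Fin r)} {m : ℕ}
    (h : KB N σ σ' m) (h1 : ∀ i, (τ.symm i).val < m ↔ (σ.symm i).val < m)
    (h2 : ∀ i, (τ'.symm i).val < m ↔ (σ'.symm i).val < m) : KB N τ τ' m := by
  have e1 : Tt τ τ' m = Tt σ σ' m := by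
    ext t
    rcases t with i | i
    · rw [inl_mem_Tt, inl_mem_Tt]
      have := h1 i
      omega
    · rw [inr_mem_Tt, inr_mem_Tt]
      exact h2 i
  have e2 : Ss τ τ' m = Ss σ σ' m := by
    ext t
    rcases t with i | i
    · rw [inl_mem_Ss, inl_mem_Ss]
      exact h1 i
    · rw [inr_mem_Ss, inr_mem_Ss]
      have := h2 i
      omega
  rw [KB, e1, e2]
  exact h

theorem card_window (σ : Equiv.Perm (Fin r)) {m0 m1 : ℕ} (h1r : m1 ≤ r) :
    (Finset.univ.filter fun i => m0 ≤ (σ.symm i).val ∧ (σ.symm i).val < m1).card = m1 - m0 := by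
  rw [← Nat.card_Ico m0 m1, ← Finset.card_map (s := Finset.univ.filter fun i =>
    m0 ≤ (σ.symm i).val ∧ (σ.symm i).val < m1) (σ.symm.toEmbedding.trans Fin.valEmbedding)]
  congr 1
  ext k
  simp only [Finset.mem_map, Finset.mem_filter, Finset.mem_univ, true_and, Finset.mem_Ico,
    Function.Embedding.trans_apply, Equiv.coe_toEmbedding, Fin.valEmbedding_apply]
  constructor
  · rintro ⟨i, hi, rfl⟩
    exact hi
  · intro hk
    refine ⟨σ ⟨k, by omega⟩, ?_, ?_⟩
    · rw [Equiv.symm_apply_apply]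
      exact hk
    · rw [Equiv.symm_apply_apply]

theorem step (N : Matroid (Fin r ⊕ Fin r)) {L : ℕ} (hL : 1 ≤ L) (hr : r ≤ 2 ^ L)
    (σ σ' : Equiv.Perm (Fin r)) {m0 m1 : ℕ} (h1r : m1 ≤ r) (h0 : KB N σ σ' m0)
    (h : r < 2 * (m1 - m0)) :
    ∃ a, ∃ τ τ' : Equiv.Perm (Fin r), 0 < a ∧ m0 + a ≤ m1 ∧
      (∀ m, m ≤ m0 ∨ m1 ≤ m → ∀ i, (τ.symm i).val < m ↔ (σ.symm i).val < m) ∧
      (∀ m, m ≤ m0 ∨ m1 ≤ m → ∀ i, (τ'.symm i).val < m ↔ (σ'.symm i).val < m) ∧
      KB N τ τ' (m0 + a) ∧ a + (m1 - m0) ≤ r + 1 ∧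
      ∀ q, (m1 - m0) * L < q * (2 * (m1 - m0) - r) → a ≤ 2 * q * L := by
  classical
  obtain ⟨hT, hT'⟩ := h0
  set T := Tt σ σ' m0 with hTdef
  set T' := Ss σ σ' m0 with hTdef'
  set S : Finset (Fin r ⊕ Fin r) := (Finset.univ.filter fun i =>
    m0 ≤ (σ.symm i).val ∧ (σ.symm i).val < m1).map ⟨Sum.inl, Sum.inl_injective⟩ with hS
  set C' : Finset (Fin r ⊕ Fin r) := (Finset.univ.filter fun i =>
    m0 ≤ (σ'.symm i).val ∧ (σ'.symm i).val < m1).map ⟨Sum.inr, Sum.inr_injective⟩ with hC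
  have hcS : S.card = m1 - m0 := by rw [hS, Finset.card_map, card_window σ h1r]
  have hcC : C'.card = m1 - m0 := by rw [hC, Finset.card_map, card_window σ' h1r]
  have memS : ∀ t, t ∈ S ↔ ∃ i, t = Sum.inl i ∧ m0 ≤ (σ.symm i).val ∧ (σ.symm i).val < m1 := by
    intro t
    simp only [hS, Finset.mem_map, Finset.mem_filter, Finset.mem_univ, true_and,
      Function.Embedding.coeFn_mk]
    constructor
    · rintro ⟨i, hi, rfl⟩
      exact ⟨i, rfl, hi⟩
    · rintro ⟨i, rfl, hi⟩
      exact ⟨i, hi, rfl⟩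
  have memC : ∀ t, t ∈ C' ↔ ∃ i, t = Sum.inr i ∧ m0 ≤ (σ'.symm i).val ∧
      (σ'.symm i).val < m1 := by
    intro t
    simp only [hC, Finset.mem_map, Finset.mem_filter, Finset.mem_univ, true_and,
      Function.Embedding.coeFn_mk]
    constructor
    · rintro ⟨i, hi, rfl⟩
      exact ⟨i, rfl, hi⟩
    · rintro ⟨i, rfl, hi⟩
      exact ⟨i, hi, rfl⟩
  have hST : S ⊆ T := by
    intro t ht
    obtain ⟨i, rfl, hi⟩ := (memS t).1 ht
    rw [hTdef, inl_mem_Tt]
    exact hi.1
  have hCT : C' ⊆ T' := by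
    intro t ht
    obtain ⟨i, rfl, hi⟩ := (memC t).1 ht
    rw [hTdef', inr_mem_Ss]
    exact hi.1
  have hd : Disjoint T T' := by
    rw [Finset.disjoint_left]
    rintro (i | i) hi hi'
    · rw [hTdef, inl_mem_Tt] at hi
      rw [hTdef', inl_mem_Ss] at hi'
      omega
    · rw [hTdef, inr_mem_Tt] at hi
      rw [hTdef', inr_mem_Ss] at hi'
      omega
  have hTc : T.card = r := card_Tt _ _ _
  have hac : ∀ A ⊆ S, Acyc (Dg N (T : Set _) T' C') A → A.card + (m1 - m0) ≤ r := by
    intro A hA hAc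
    have h1 := acyc_card hT hT' hd hCT A (hA.trans hST) hAc
    rw [hcC, hTc] at h1
    exact h1
  have hnS : ¬ Acyc (Dg N (T : Set _) T' C') S := by
    intro h1
    have h2 := hac S (Finset.Subset.refl _) h1
    omega
  obtain ⟨mx, -, wx, hwx⟩ := exists_cw_of_not_acyc hnS
  obtain ⟨a, -, w, hw, hmin⟩ := exists_shortest hwx
  have hb1 : a + (m1 - m0) ≤ r + 1 := by
    obtain ⟨S0, hS0, hcS0⟩ := Finset.exists_subset_card_eq
      (show r + 1 - (m1 - m0) ≤ S.card by omega)
    have hn0 : ¬ Acyc (Dg N (T : Set _) T' C') S0 := by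
      intro h1
      have h2 := hac S0 hS0 h1
      omega
    obtain ⟨m, hm, w', hw'⟩ := exists_cw_of_not_acyc hn0
    by_contra hcon
    exact hmin m (by omega) w' (hw'.mono hS0)
  have hb2 : ∀ q, (m1 - m0) * L < q * (2 * (m1 - m0) - r) → a ≤ 2 * q * L := by
    intro q hq
    obtain ⟨m, hm, w', hw'⟩ := short_cycle (Dg N (T : Set _) T' C') S L q hL (by
      rcases Nat.eq_zero_or_pos q with h1 | h1
      · rw [h1, Nat.zero_mul] at hq
        omega
      · exact h1) (by omega) (by rw [← Finset.card_pos]; omega) (by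
      intro A hA hAc
      have h1 := hac A hA hAc
      rw [hcS]
      exact lt_of_lt_of_le hq (Nat.mul_le_mul_left q (by omega)))
    by_contra hcon
    exact hmin m (by omega) w' hw'
  obtain ⟨A, hA, D, hD, hcA, hcD, hB1, hB2⟩ := cycle_exchange hT hT' hd hCT hST hw hmin
  have ha0 : 0 < a := hw.1
  have ham : m0 + a ≤ m1 := by
    have h1 := Finset.card_le_card hA
    omega
  have hA0 : A = (Finset.univ.filter fun i => Sum.inl i ∈ A).map
      ⟨Sum.inl, Sum.inl_injective⟩ := by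
    ext t
    simp only [Finset.mem_map, Finset.mem_filter, Finset.mem_univ, true_and,
      Function.Embedding.coeFn_mk]
    constructor
    · intro ht
      obtain ⟨i, rfl, -⟩ := (memS t).1 (hA ht)
      exact ⟨i, ht, rfl⟩
    · rintro ⟨i, hi, rfl⟩
      exact hi
  have hD0 : D = (Finset.univ.filter fun i => Sum.inr i ∈ D).map
      ⟨Sum.inr, Sum.inr_injective⟩ := by
    ext t
    simp only [Finset.mem_map, Finset.mem_filter, Finset.mem_univ, true_and,
      Function.Embedding.coeFn_mk]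
    constructor
    · intro ht
      obtain ⟨i, rfl, -⟩ := (memC t).1 (hD ht)
      exact ⟨i, ht, rfl⟩
    · rintro ⟨i, hi, rfl⟩
      exact hi
  obtain ⟨τ, hτ1, hτ2⟩ := exists_move σ (Finset.univ.filter fun i => Sum.inl i ∈ A) ham h1r (by
    intro i hi
    rw [Finset.mem_filter] at hi
    obtain ⟨j, hj, hj2⟩ := (memS _).1 (hA hi.2)
    rw [Sum.inl_injective hj]
    exact hj2) (by
    rw [← hcA]
    conv_rhs => rw [hA0]
    rw [Finset.card_map])
  obtain ⟨τ', hτ1', hτ2'⟩ := exists_move σ' (Finset.univ.filter fun i => Sum.inr i ∈ D) ham h1r (by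
    intro i hi
    rw [Finset.mem_filter] at hi
    obtain ⟨j, hj, hj2⟩ := (memC _).1 (hD hi.2)
    rw [Sum.inr_injective hj]
    exact hj2) (by
    rw [← hcD]
    conv_rhs => rw [hD0]
    rw [Finset.card_map])
  have hnA : ∀ i, Sum.inr i ∉ A := by
    intro i hi
    obtain ⟨j, hj, -⟩ := (memS _).1 (hA hi)
    exact absurd hj (by simp)
  have hnD : ∀ i, Sum.inl i ∉ D := by
    intro i hi
    obtain ⟨j, hj, -⟩ := (memC _).1 (hD hi)
    exact absurd hj (by simp)
  refine ⟨a, τ, τ', ha0, ham, hτ1, hτ1', ⟨?_, ?_⟩, hb1, hb2⟩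
  · have e : Tt τ τ' (m0 + a) = (T \ A) ∪ D := by
      ext t
      rcases t with i | i
      · have h1 := hτ2 i
        have h2 := hnD i
        rw [Finset.mem_filter] at h1
        simp only [Finset.mem_univ, true_and] at h1
        rw [inl_mem_Tt, Finset.mem_union, Finset.mem_sdiff, hTdef, inl_mem_Tt, ← not_lt, h1]
        rw [← not_lt]
        tauto
      · have h1 := hτ2' i
        have h2 := hnA i
        rw [Finset.mem_filter] at h1
        simp only [Finset.mem_univ, true_and] at h1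
        rw [inr_mem_Tt, Finset.mem_union, Finset.mem_sdiff, hTdef, inr_mem_Tt, h1]
        tauto
    rw [e]
    exact hB1
  · have e : Ss τ τ' (m0 + a) = (T' \ D) ∪ A := by
      ext t
      rcases t with i | i
      · have h1 := hτ2 i
        have h2 := hnD i
        rw [Finset.mem_filter] at h1
        simp only [Finset.mem_univ, true_and] at h1
        rw [inl_mem_Ss, Finset.mem_union, Finset.mem_sdiff, hTdef', inl_mem_Ss, h1]
        tauto
      · have h1 := hτ2' i
        have h2 := hnA i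
        rw [Finset.mem_filter] at h1
        simp only [Finset.mem_univ, true_and] at h1
        rw [inr_mem_Ss, Finset.mem_union, Finset.mem_sdiff, hTdef', inr_mem_Ss, ← not_lt, h1]
        rw [← not_lt]
        tauto
    rw [e]
    exact hB2

end Pool.Agent.Gap14
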